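import Mathlib

/-!
# Sublevel sets of real polynomials on the natural numbers
-/

set_option autoImplicit false

open Finset Filter Topology

namespace Pool.Agent.Lib.Pf720pp

/-- a nonzero real polynomial is eventually bounded away from zero, with constant sign -/
lemma eventually_away (r : Polynomial ℝ) (hr : r ≠ 0) :
    ∃ c > (0 : ℝ), ∃ t₀ : ℕ, (∀ t : ℕ, t₀ ≤ t → c ≤ r.eval (t : ℝ)) ∨
      (∀ t : ℕ, t₀ ≤ t → r.eval (t : ℝ) ≤ -c) := by
  have hlc : r.leadingCoeff ≠ 0 := Polynomial.leadingCoeff_ne_zero.2 hr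
  by_cases hd : r.natDegree = 0
  · obtain ⟨c, hc⟩ := Polynomial.natDegree_eq_zero.1 hd
    have hc0 : c ≠ 0 := by
      rintro rfl
      apply hr
      rw [← hc]; simp
    refine ⟨|c|, abs_pos.2 hc0, 0, ?_⟩
    rcases lt_or_gt_of_ne hc0 with h | h
    · right
      intro t _
      rw [← hc, Polynomial.eval_C, abs_of_neg h]
      linarith
    · left
      intro t _
      rw [← hc, Polynomial.eval_C, abs_of_pos h]
  · have hdeg : 0 < r.degree := Polynomial.natDegree_pos_iff_degree_pos.1 (Nat.pos_of_ne_zero hd)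
    refine ⟨1, one_pos, ?_⟩
    rcases lt_or_gt_of_ne hlc with h | h
    · have h1 := (Polynomial.tendsto_atBot_of_leadingCoeff_nonpos r hdeg h.le).comp
        (tendsto_natCast_atTop_atTop (R := ℝ))
      obtain ⟨t₀, ht⟩ := (h1.eventually (eventually_le_atBot (-1 : ℝ))).exists_forall_of_atTop
      exact ⟨t₀, Or.inr fun t h => ht t h⟩
    · have h1 := (Polynomial.tendsto_atTop_of_leadingCoeff_nonneg r hdeg h.le).comp
        (tendsto_natCast_atTop_atTop (R := ℝ))
      obtain ⟨t₀, ht⟩ := (h1.eventually (eventually_ge_atTop (1 : ℝ))).exists_forall_of_atTop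
      exact ⟨t₀, Or.inl fun t h => ht t h⟩

/-- the increments of a nonconstant polynomial do not vanish identically -/
lemma diff_ne_zero (q : Polynomial ℝ) (hq : q.natDegree ≠ 0) :
    q.comp (Polynomial.X + 1) - q ≠ 0 := by
  intro h
  have h1 : ∀ t : ℝ, q.eval (t + 1) = q.eval t := by
    intro t
    have h2 := congrArg (Polynomial.eval t) h
    simp only [Polynomial.eval_sub, Polynomial.eval_comp, Polynomial.eval_add, Polynomial.eval_X,
      Polynomial.eval_one, Polynomial.eval_zero] at h2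
    linarith
  have h2 : ∀ n : ℕ, q.eval (n : ℝ) = q.eval 0 := by
    intro n
    induction n with
    | zero => simp
    | succ n ih => rw [Nat.cast_succ, h1, ih]
  have h3 : q = Polynomial.C (q.eval 0) := by
    apply Polynomial.eq_of_infinite_eval_eq
    refine Set.Infinite.mono ?_ (Set.infinite_range_of_injective (Nat.cast_injective (R := ℝ)))
    rintro _ ⟨n, rfl⟩
    simp [h2 n]
  apply hq
  rw [h3]
  exact Polynomial.natDegree_C _

/-- counting for sequences with increments bounded below -/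
lemma count_incr (s : ℕ → ℝ) {c : ℝ} (hc : 0 < c) {t₀ : ℕ}
    (hs : ∀ t, t₀ ≤ t → c ≤ s (t + 1) - s t) {p : ℝ} (hp : 0 ≤ p) (a : ℝ) (N : ℕ) :
    (((range N).filter fun t : ℕ => |a + s t| ≤ p).card : ℝ) ≤ t₀ + (2 * p / c + 1) := by
  set S := (range N).filter fun t : ℕ => |a + s t| ≤ p with hS
  have hgrow : ∀ t, t₀ ≤ t → ∀ e : ℕ, c * e ≤ s (t + e) - s t := by
    intro t ht e
    induction e with
    | zero => simp
    | succ e ih =>
      have h1 := hs (t + e) (by omega)
      push_cast
      rw [← add_assoc]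
      nlinarith
  set S₂ := S.filter fun t => t₀ ≤ t with hS₂
  have h2 : (S₂.card : ℝ) ≤ 2 * p / c + 1 := by
    rcases S₂.eq_empty_or_nonempty with h | h
    · rw [h]
      simp only [card_empty, Nat.cast_zero]
      positivity
    · set t₁ := S₂.min' h with ht₁
      have hm1 := S₂.min'_mem h
      have h0 : |a + s t₁| ≤ p := (mem_filter.1 (mem_filter.1 hm1).1).2
      have h0' : t₀ ≤ t₁ := (mem_filter.1 hm1).2
      have hsub : S₂ ⊆ Icc t₁ (t₁ + ⌊2 * p / c⌋₊) := by
        intro t ht
        have h1 : |a + s t| ≤ p := (mem_filter.1 (mem_filter.1 ht).1).2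
        have h2 : t₁ ≤ t := S₂.min'_le t ht
        rw [mem_Icc]
        refine ⟨h2, ?_⟩
        obtain ⟨e, rfl⟩ := Nat.exists_eq_add_of_le h2
        have h3 : c * e ≤ 2 * p := by
          have h4 := hgrow t₁ h0' e
          have h5 := abs_le.1 h0
          have h6 := abs_le.1 h1
          linarith [h5.1, h6.2]
        have h4 : e ≤ ⌊2 * p / c⌋₊ := by
          refine Nat.le_floor ?_
          rw [le_div_iff₀ hc]
          linarith
        omega
      have h5 := card_le_card hsub
      rw [Nat.card_Icc] at h5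
      have h6 : S₂.card ≤ ⌊2 * p / c⌋₊ + 1 := by omega
      have h7 : ((⌊2 * p / c⌋₊ : ℕ) : ℝ) ≤ 2 * p / c := Nat.floor_le (by positivity)
      calc (S₂.card : ℝ) ≤ ((⌊2 * p / c⌋₊ + 1 : ℕ) : ℝ) := by exact_mod_cast h6
        _ ≤ 2 * p / c + 1 := by push_cast; linarith
  have h3 : S ⊆ range t₀ ∪ S₂ := by
    intro t ht
    rw [mem_union]
    by_cases h : t₀ ≤ t
    · exact Or.inr (mem_filter.2 ⟨ht, h⟩)
    · exact Or.inl (mem_range.2 (by omega))
  have h4 : S.card ≤ t₀ + S₂.card := by
    refine (card_le_card h3).trans ((card_union_le _ _).trans ?_)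
    rw [card_range]
  calc (S.card : ℝ) ≤ ((t₀ + S₂.card : ℕ) : ℝ) := by exact_mod_cast h4
    _ ≤ t₀ + (2 * p / c + 1) := by push_cast; linarith

/-- sublevel sets of nonconstant real polynomials are uniformly finite -/
theorem count_poly (q : Polynomial ℝ) (hq : q.natDegree ≠ 0) {p : ℝ} (hp : 0 ≤ p) :
    ∃ C : ℝ, 0 ≤ C ∧ ∀ (a : ℝ) (N : ℕ),
      (((range N).filter fun t : ℕ => |a + q.eval (t : ℝ)| ≤ p).card : ℝ) ≤ C := by
  obtain ⟨c, hc, t₀, h⟩ := eventually_away _ (diff_ne_zero q hq)
  refine ⟨t₀ + (2 * p / c + 1), by positivity, fun a N => ?_⟩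
  have hev : ∀ t : ℕ, (q.comp (Polynomial.X + 1) - q).eval (t : ℝ) =
      q.eval (((t + 1 : ℕ) : ℝ)) - q.eval (t : ℝ) := by
    intro t
    simp
  rcases h with h | h
  · exact count_incr (fun t => q.eval (t : ℝ)) hc (fun t ht => by
      have := h t ht
      rwa [hev] at this) hp a N
  · have h1 := count_incr (fun t => -q.eval (t : ℝ)) hc (t₀ := t₀) (fun t ht => by
      have := h t ht
      rw [hev] at this
      linarith) hp (-a) N
    refine le_trans (le_of_eq ?_) h1
    congr 2
    ext t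
    simp only [mem_filter]
    have : |(-a) + -q.eval (t : ℝ)| = |a + q.eval (t : ℝ)| := by
      rw [← neg_add, abs_neg]
    rw [this]

end Pool.Agent.Lib.Pf720pp
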