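import Pool.Agent.Lib.Pf720pp.Core
import Pool.Agent.Lib.Pf720pp.Count
import Pool.Agent.Lib.Pf720pi.Base

/-!
# Products of tail functions and delayed martingale differences along polynomials
-/

set_option autoImplicit false
set_option linter.unusedSectionVars false

open Finset MeasureTheory Filter Topology
open scoped ENNReal

namespace Pool.Agent.Lib.Pf720pp

open Pool.Agent.Lib.Pf720ae
open Pool.Agent.Lib.Pf720pi (past tail past_mono past_le tail_le tail_le_past glue IsMD
  abs_prod_le_one measurable_tail_comp mdiff_meas mdiff_orth doubling)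

/-- vectors of integer polynomials in one variable -/
abbrev PV (d : ℕ) := Fin d → Polynomial ℤ

section ev

variable {κ : Type} [Fintype κ] {d : ℕ}

/-- the exponent `∑_l q_l(m_l)` -/
def ev (q : κ → PV d) (m : κ → ℕ) : Fin d → ℤ :=
  fun i => ∑ l, (q l i).eval ((m l : ℕ) : ℤ)

lemma ev_zero (m : κ → ℕ) : ev (0 : κ → PV d) m = 0 := by
  funext i
  simp [ev]

lemma ev_congr (q : κ → PV d) {m m' : κ → ℕ} (h : ∀ l, q l ≠ 0 → m l = m' l) :
    ev q m = ev q m' := by
  funext i
  refine Finset.sum_congr rfl fun l _ => ?_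
  by_cases h0 : q l = 0
  · rw [h0]; simp
  · rw [h l h0]

lemma ev_sumElim {α β : Type} [Fintype α] [Fintype β] (q₁ : α → PV d) (q₂ : β → PV d)
    (m : α ⊕ β → ℕ) : ev (Sum.elim q₁ q₂) m =
      ev q₁ (fun l => m (Sum.inl l)) + ev q₂ (fun l => m (Sum.inr l)) := by
  funext i
  simp only [ev, Pi.add_apply]
  rw [Fintype.sum_sum_type]
  rfl

lemma ev_glue (q : κ → PV d) (vis : κ → Prop) [DecidablePred vis] (a : {l // vis l} → ℕ)
    (b : {l // ¬ vis l} → ℕ) : ev q (glue vis a b) =
      ev (fun l : {l // vis l} => q l.1) a + ev (fun l : {l // ¬ vis l} => q l.1) b := by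
  funext i
  simp only [ev, Pi.add_apply]
  rw [← Fintype.sum_subtype_add_sum_subtype vis
    (fun l => (q l i).eval ((glue vis a b l : ℕ) : ℤ))]
  congr 1
  · exact Finset.sum_congr rfl fun l _ => by simp [glue, l.2]
  · exact Finset.sum_congr rfl fun l _ => by simp [glue, l.2]

/-- the real polynomial `φ ∘ q` -/
noncomputable def rp (φ : (Fin d → ℤ) →+ ℝ) (q : PV d) : Polynomial ℝ :=
  ∑ i, Polynomial.C (φ (Pi.single i 1)) * (q i).map (Int.castRingHom ℝ)

lemma phi_eq (φ : (Fin d → ℤ) →+ ℝ) (v : Fin d → ℤ) :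
    φ v = ∑ i, φ (Pi.single i 1) * (v i : ℝ) := by
  conv_lhs => rw [← Finset.univ_sum_single v]
  rw [map_sum]
  refine Finset.sum_congr rfl fun i _ => ?_
  have : (Pi.single i (v i) : Fin d → ℤ) = v i • Pi.single i (1 : ℤ) := by
    rw [← Pi.single_smul]
    simp
  rw [this, map_zsmul, zsmul_eq_mul, mul_comm]

lemma rp_eval (φ : (Fin d → ℤ) →+ ℝ) (q : PV d) (t : ℕ) :
    (rp φ q).eval (t : ℝ) = φ (fun i => (q i).eval (t : ℤ)) := by
  rw [phi_eq, rp, Polynomial.eval_finsetSum]
  refine Finset.sum_congr rfl fun i _ => ?_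
  rw [Polynomial.eval_mul, Polynomial.eval_C]
  congr 1
  have h := Polynomial.eval_intCast_map (Int.castRingHom ℝ) (q i) (t : ℤ)
  simpa using h

lemma rp_coeff (φ : (Fin d → ℤ) →+ ℝ) (q : PV d) (n : ℕ) :
    (rp φ q).coeff n = φ (fun i => (q i).coeff n) := by
  rw [phi_eq, rp, Polynomial.finsetSum_coeff]
  refine Finset.sum_congr rfl fun i _ => ?_
  rw [Polynomial.coeff_C_mul, Polynomial.coeff_map]
  rfl

lemma rp_sub (φ : (Fin d → ℤ) →+ ℝ) (q q' : PV d) : rp φ (q - q') = rp φ q - rp φ q' := by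
  simp only [rp, Pi.sub_apply, Polynomial.map_sub, mul_sub, Finset.sum_sub_distrib]

lemma rp_natDegree {φ : (Fin d → ℤ) →+ ℝ} (hφ : Function.Injective φ) {q : PV d} (hq : q ≠ 0)
    (hq0 : ∀ i, (q i).coeff 0 = 0) : (rp φ q).natDegree ≠ 0 := by
  intro h
  apply hq
  funext i
  ext n
  rw [Pi.zero_apply, Polynomial.coeff_zero]
  rcases Nat.eq_zero_or_pos n with h0 | h0
  · rw [h0]; exact hq0 i
  · have h1 : (rp φ q).coeff n = 0 := Polynomial.coeff_eq_zero_of_natDegree_lt (by omega)
    rw [rp_coeff] at h1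
    have h2 : (fun i => (q i).coeff n) = 0 := hφ (by rw [h1, map_zero])
    exact congrFun h2 i

end ev

open CoreAux in
/-- line bounds from polynomials -/
lemma lineBd_of_poly {κ : Type} [DecidableEq κ] (f : (κ → ℕ) → ℝ) (l : κ)
    (r : Polynomial ℝ) (hr : r.natDegree ≠ 0)
    (h : ∀ (m : κ → ℕ) (t : ℕ), f (Function.update m l t) =
      f (Function.update m l 0) + (r.eval (t : ℝ) - r.eval 0)) {p : ℝ} (hp : 0 ≤ p) :
    ∃ C, LineBd f l p C := by
  obtain ⟨C, -, hC⟩ := count_poly r hr hp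
  refine ⟨C, fun m a N => ?_⟩
  refine le_trans (le_of_eq ?_) (hC (a + f (Function.update m l 0) - r.eval 0) N)
  congr 2
  ext t
  simp only [Finset.mem_filter]
  rw [h m t]
  have : a + (f (Function.update m l 0) + (r.eval (t : ℝ) - r.eval 0)) =
      a + f (Function.update m l 0) - r.eval 0 + r.eval (t : ℝ) := by ring
  rw [this]

lemma ev_update {κ : Type} [Fintype κ] [DecidableEq κ] {d : ℕ} (q : κ → PV d) (m : κ → ℕ) (l : κ)
    (t : ℕ) : ev q (Function.update m l t) = ev q (Function.update m l 0) +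
      ((fun i => (q l i).eval (t : ℤ)) - fun i => (q l i).eval 0) := by
  funext i
  simp only [ev, Pi.add_apply, Pi.sub_apply]
  rw [← Finset.add_sum_erase _ _ (Finset.mem_univ l), ← Finset.add_sum_erase
    (f := fun l' => (q l' i).eval ((Function.update m l 0 l' : ℕ) : ℤ)) _ (Finset.mem_univ l)]
  have h1 : ∑ x ∈ Finset.univ.erase l, (q x i).eval ((Function.update m l t x : ℕ) : ℤ) =
      ∑ x ∈ Finset.univ.erase l, (q x i).eval ((Function.update m l 0 x : ℕ) : ℤ) := by
    refine Finset.sum_congr rfl fun x hx => ?_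
    rw [Function.update_of_ne (Finset.ne_of_mem_erase hx),
      Function.update_of_ne (Finset.ne_of_mem_erase hx)]
  rw [h1, Function.update_self, Function.update_self]
  push_cast
  ring

lemma phi_ev_update {κ : Type} [Fintype κ] [DecidableEq κ] {d : ℕ} (φ : (Fin d → ℤ) →+ ℝ)
    (q : κ → PV d) (m : κ → ℕ) (l : κ) (t : ℕ) : φ (ev q (Function.update m l t)) =
      φ (ev q (Function.update m l 0)) + ((rp φ (q l)).eval (t : ℝ) - (rp φ (q l)).eval 0) := by
  rw [ev_update, map_add, map_sub]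
  congr 2
  · exact (rp_eval φ (q l) t).symm
  · have := rp_eval φ (q l) 0
    simpa using this.symm

/-- convergence of all separable polynomial multiple averages with exponents in `Q` and a number
of variables in `K`, of bounded `m`-measurable real functions -/
def PolR {X : Type} {mX : MeasurableSpace X} (μ : Measure X) {d : ℕ} (K : Set ℕ)
    (Q : Set (PV d)) (W : (Fin d → ℤ) → X → X) (m : MeasurableSpace X) : Prop :=
  ∀ (κ : Type) [Fintype κ] [DecidableEq κ] (J : Type) [Fintype J] [DecidableEq J]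
    (q : J → κ → PV d) (F : J → X → ℝ), Fintype.card κ ∈ K → (∀ j l, q j l = 0 ∨ q j l ∈ Q) →
    (∀ j, Measurable[m] (F j)) →
    (∀ j x, |F j x| ≤ 1) → ∀ᵐ x ∂μ, Cvg fun m : κ → ℕ => ∏ j, F j (W (ev (q j) m) x)

variable {κ : Type} [Fintype κ] [DecidableEq κ]

open CoreAux in
theorem base_case {X : Type} {mP : MeasurableSpace X} {mX : MeasurableSpace X} {μ : Measure X}
    [IsProbabilityMeasure μ] {d : ℕ} (hP : mP ≤ mX) (W : (Fin d → ℤ) → X → X)
    (hW0 : ∀ x, W 0 x = x)
    (hWadd : ∀ a b x, W (a + b) x = W a (W b x)) (hWmp : ∀ a, MeasurePreserving (W a) μ μ)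
    (φ : (Fin d → ℤ) →+ ℝ) (hφ : Function.Injective φ)
    (K : Set ℕ) (hK : ∀ v w, 1 ≤ v → v + w ∈ K → v + 2 * w ∈ K)
    (Q : Set (PV d)) (hQ : ∀ q ∈ Q, ∀ i, (q i).coeff 0 = 0)
    (hH : PolR μ K Q W (tail W φ mP)) (hκ : Fintype.card κ ∈ K)
    {J : Type} [Fintype J] [DecidableEq J]
    (q : J → κ → PV d) (hqQ : ∀ j l, q j l = 0 ∨ q j l ∈ Q) (hq0 : ∀ j, q j ≠ 0)
    (hqinj : Function.Injective q)
    (F : J → X → ℝ)
    (hF : ∀ j, (Measurable[tail W φ mP] (F j) ∧ ∀ x, |F j x| ≤ 1) ∨ IsMD μ W φ mP (F j)) :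
    ∀ᵐ x ∂μ, Cvg fun m : κ → ℕ => ∏ j, F j (W (ev (q j) m) x) := by
  classical
  set tt : J → Prop := fun j => Measurable[tail W φ mP] (F j) ∧ ∀ x, |F j x| ≤ 1 with htt
  by_cases hall : ∀ j, tt j
  · exact hH κ J q F hκ hqQ (fun j => (hall j).1) (fun j => (hall j).2)
  push Not at hall
  obtain ⟨j₀, hj₀⟩ := hall
  have hWm : ∀ a, Measurable (W a) := fun a => (hWmp a).measurable
  have hc0 : ∀ j l i, (q j l i).coeff 0 = 0 := by
    intro j l i
    rcases hqQ j l with h | h
    · rw [h]; simp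
    · exact hQ _ h i
  -- the martingale differences
  have hmd : ∀ j : {j // ¬ tt j}, IsMD μ W φ mP (F j.1) := fun j => (hF j.1).resolve_left j.2
  choose p f g hfm hf1 hgm hg1 hfg hFe using hmd
  have hFe' : ∀ (j : {j // ¬ tt j}) x, F j.1 x = (f j x - g j x) / 2 := fun j x =>
    congrFun (hFe j) x
  obtain ⟨pm, hpm⟩ : ∃ pm : ℕ, ∀ j, p j ≤ pm := ⟨Finset.univ.sup p, fun j =>
    Finset.le_sup (Finset.mem_univ j)⟩
  have hF1 : ∀ j x, |F j x| ≤ 1 := by
    intro j x
    by_cases h : tt j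
    · exact h.2 x
    · rw [hFe' ⟨j, h⟩ x, abs_div, abs_of_pos (by norm_num : (0 : ℝ) < 2)]
      have h1 := abs_sub (f ⟨j, h⟩ x) (g ⟨j, h⟩ x)
      have h2 := hf1 ⟨j, h⟩ x
      have h3 := hg1 ⟨j, h⟩ x
      rw [div_le_one (by norm_num)]
      linarith
  -- visible coordinates
  set vis : κ → Prop := fun l => ∃ j : {j // ¬ tt j}, q j.1 l ≠ 0 with hvis
  have hnv : ∀ l, ¬ vis l → ∀ j : {j // ¬ tt j}, q j.1 l = 0 := by
    intro l hl j
    by_contra h
    exact hl ⟨j, h⟩
  have hne : Nonempty {l // vis l} := by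
    by_contra h
    rw [not_nonempty_iff] at h
    refine hq0 j₀ (funext fun l => ?_)
    have hl : ¬ vis l := fun hl => h.false ⟨l, hl⟩
    exact hnv l hl ⟨j₀, hj₀⟩
  -- the exponents of the martingale differences only see the visible coordinates
  have hev : ∀ (j : {j // ¬ tt j}) (a : {l // vis l} → ℕ) (b : {l // ¬ vis l} → ℕ),
      ev (q j.1) (glue vis a b) = ev (fun l : {l // vis l} => q j.1 l.1) a := by
    intro j a b
    rw [ev_glue]
    have : (fun l : {l // ¬ vis l} => q j.1 l.1) = 0 := funext fun l => hnv l.1 l.2 j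
    rw [this, ev_zero, add_zero]
  set ψ : {j // ¬ tt j} → ({l // vis l} → ℕ) → ℝ := fun j m =>
    φ (ev (fun l : {l // vis l} => q j.1 l.1) m) with hψ
  have hcore : ∀ M₀ : {l // ¬ vis l} → ℕ, ∀ᵐ x ∂μ,
      Tendsto (fun M₁ : {l // vis l} → ℕ => avg M₁ fun m₁ =>
        (∏ j : {j // ¬ tt j}, F j.1 (W (ev (q j.1) (glue vis m₁ 0)) x)) *
          avg M₀ fun m₀ => ∏ j : {j // tt j}, F j.1 (W (ev (q j.1) (glue vis m₁ m₀)) x))
        atTop (𝓝 0) := by
    intro M₀
    refine core_ae (past W φ mP) (past_le W φ hP hWm) ψ (fun j l => q j.1 l.1 ≠ 0) (pm : ℝ)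
      (by positivity) ?_ ?_ ?_
      (fun j m₁ x => F j.1 (W (ev (q j.1) (glue vis m₁ 0)) x)) ?_ ?_ ?_ ?_
      (fun m₁ x => avg M₀ fun m₀ =>
        ∏ j : {j // tt j}, F j.1 (W (ev (q j.1) (glue vis m₁ m₀)) x)) ?_ ?_
    · -- distinct
      intro i j hij
      have hne' : q i.1 ≠ q j.1 := fun h => hij (Subtype.ext (hqinj h))
      obtain ⟨l, hl⟩ := Function.ne_iff.1 hne'
      have hv : vis l := by
        by_contra hv
        exact hl (by rw [hnv l hv i, hnv l hv j])
      obtain ⟨C, hC⟩ := lineBd_of_poly (fun m => ψ i m - ψ j m) ⟨l, hv⟩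
        (rp φ (q i.1 l - q j.1 l))
        (rp_natDegree hφ (sub_ne_zero.2 hl) fun i' => by
          rw [Pi.sub_apply, Polynomial.coeff_sub, hc0, hc0, sub_zero]) (fun m t => by
          simp only [hψ]
          rw [phi_ev_update, phi_ev_update φ (fun l : {l // vis l} => q j.1 l.1), rp_sub,
            Polynomial.eval_sub, Polynomial.eval_sub]
          ring) (p := (pm : ℝ)) (by positivity)
      exact ⟨⟨l, hv⟩, C, hC⟩
    · intro j l hl
      exact lineBd_of_poly (ψ j) l (rp φ (q j.1 l.1)) (rp_natDegree hφ hl fun i => hc0 _ _ _)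
        (fun m t => phi_ev_update φ (fun l : {l // vis l} => q j.1 l.1) m l t) (by positivity)
    · rintro ⟨l, hl⟩
      exact hl
    · intro j m x
      exact hF1 _ _
    · intro j m s hs
      have h1 := mdiff_meas W hWadd φ (p := (p j : ℝ)) (by positivity) (hfm j) (hgm j)
        (ev (q j.1) (glue vis m 0)) s (by rw [hev]; exact hs)
      have h2 := h1.div_const 2
      have e : (fun x => F j.1 (W (ev (q j.1) (glue vis m 0)) x)) = fun x =>
          (f j (W (ev (q j.1) (glue vis m 0)) x) - g j (W (ev (q j.1) (glue vis m 0)) x)) / 2 := by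
        funext x
        exact hFe' j _
      rw [e]
      exact h2
    · intro j m h hh hh1
      have hh' : Measurable[past W φ mP (φ (ev (q j.1) (glue vis m 0)) - (p j : ℝ))] h := by
        refine hh.mono (past_mono W φ mP ?_) le_rfl
        rw [hev]
        have : (p j : ℝ) ≤ pm := by exact_mod_cast hpm j
        simp only [hψ]
        linarith
      have h1 := mdiff_orth hP W hW0 hWadd hWmp φ (p j : ℝ) (hfm j) (hf1 j) (hfg j) (hgm j)
        (hg1 j) (ev (q j.1) (glue vis m 0)) h hh' hh1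
      have e2 : ∀ x, F j.1 (W (ev (q j.1) (glue vis m 0)) x) * h x = (1 / 2) *
          ((f j (W (ev (q j.1) (glue vis m 0)) x) - g j (W (ev (q j.1) (glue vis m 0)) x)) *
            h x) := by
        intro x
        rw [hFe' j]
        ring
      simp only [e2]
      rw [integral_const_mul, h1, mul_zero]
    · intro j l hl m t x
      have h0 : q j.1 l.1 = 0 := by
        by_contra h
        exact hl h
      have e : ev (q j.1) (glue vis (Function.update m l t) 0) =
          ev (q j.1) (glue vis (Function.update m l 0) 0) := by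
        rw [hev, hev]
        refine ev_congr _ fun l' hl' => ?_
        have : l' ≠ l := by
          rintro rfl
          exact hl' h0
        rw [Function.update_of_ne this, Function.update_of_ne this]
      simp only [e]
    · intro m x
      exact abs_avg_le_of_le zero_le_one fun m₀ => abs_prod_le_one _ _ fun j => hF1 _ _
    · intro m s
      unfold avg
      refine Measurable.const_mul (Finset.measurable_fun_sum _ fun m₀ _ => ?_) _
      refine Finset.measurable_fun_prod _ fun j _ => ?_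
      exact measurable_tail_comp W hWadd φ j.2.1 _ s
  -- the doubled family
  have hcard : Fintype.card ({l // vis l} ⊕ ({l // ¬ vis l} ⊕ {l // ¬ vis l})) ∈ K := by
    rw [Fintype.card_sum, Fintype.card_sum, ← two_mul]
    refine hK _ _ (Fintype.card_pos) ?_
    have := Fintype.card_subtype_compl vis
    have h2 : Fintype.card {l // vis l} ≤ Fintype.card κ := Fintype.card_subtype_le _
    rw [this, Nat.add_sub_cancel' h2]
    exact hκ
  have hdbl := hH ({l // vis l} ⊕ ({l // ¬ vis l} ⊕ {l // ¬ vis l})) ({j // tt j} ⊕ {j // tt j})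
    (Sum.elim
      (fun j => Sum.elim (fun l : {l // vis l} => q j.1 l.1)
        (Sum.elim (fun l : {l // ¬ vis l} => q j.1 l.1) (fun _ => 0)))
      (fun j => Sum.elim (fun l : {l // vis l} => q j.1 l.1)
        (Sum.elim (fun _ => 0) (fun l : {l // ¬ vis l} => q j.1 l.1))))
    (Sum.elim (fun j => F j.1) (fun j => F j.1)) hcard
    (by
      rintro (j | j) (l | l | l)
      · exact hqQ _ _
      · exact hqQ _ _
      · exact Or.inl rfl
      · exact hqQ _ _
      · exact Or.inl rfl
      · exact hqQ _ _)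
    (by rintro (j | j) <;> exact j.2.1) (by rintro (j | j) <;> exact j.2.2)
  filter_upwards [ae_all_iff.2 hcore, hdbl] with x hx1 hx2
  have h0 := doubling vis (fun m => ∏ j : {j // ¬ tt j}, F j.1 (W (ev (q j.1) m) x))
    (fun m => ∏ j : {j // tt j}, F j.1 (W (ev (q j.1) m) x))
    (fun m => abs_prod_le_one _ _ fun j => hF1 _ _)
    (fun m => abs_prod_le_one _ _ fun j => hF1 _ _) ?_ (fun M₀ _ => hx1 M₀) ?_
  · refine ⟨0, h0.congr fun M => ?_⟩
    refine avg_congr fun m _ => ?_
    rw [mul_comm]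
    exact Fintype.prod_subtype_mul_prod_subtype tt fun j => F j (W (ev (q j) m) x)
  · intro m m' hmm
    refine Finset.prod_congr rfl fun j _ => ?_
    have e : ev (q j.1) m = ev (q j.1) m' := ev_congr _ fun l hl => hmm l ⟨j, hl⟩
    rw [e]
  · refine hx2.congr fun m => ?_
    rw [Fintype.prod_sum_type]
    have hz : ∀ m : {l // ¬ vis l} → ℕ, ev (fun _ : {l // ¬ vis l} => (0 : PV d)) m = 0 :=
      fun m => ev_zero m
    congr 1
    · refine Finset.prod_congr rfl fun j _ => ?_
      simp only [Sum.elim_inl]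
      rw [ev_glue, ev_sumElim, ev_sumElim, hz, add_zero]
    · refine Finset.prod_congr rfl fun j _ => ?_
      simp only [Sum.elim_inr]
      rw [ev_glue, ev_sumElim, ev_sumElim, hz, zero_add]

end Pool.Agent.Lib.Pf720pp
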