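import Pool.Agent.Lib.Pf720pp.Final
import Pool.Agent.Lib.Pf720gs.GFinal

/-!
# The reduction to a factor containing the Pinsker factor
-/

set_option autoImplicit false

open Finset MeasureTheory Filter Topology
open scoped ENNReal

namespace Pool.Agent.Lib.Pf720pp

open Pool.Agent.Lib.Pf720ae
open Pool.Agent.Lib.Pf720pi (pinskerW)

theorem factor_reduction {X : Type} (𝒩 : MeasurableSpace X) {mX : MeasurableSpace X}
    {μ : Measure X} [IsProbabilityMeasure μ] {d : ℕ} (T : Fin d → Equiv.Perm X)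
    (hT : ∀ i, Measurable (T i) ∧ Measurable (T i).symm ∧ MeasurePreserving (T i) μ μ)
    (hcomm : ∀ i i', T i * T i' = T i' * T i) (K : Set ℕ) (hK : K = {1} ∨ K = Set.univ)
    (Q : Set (Fin d → Polynomial ℤ))
    (s : Set (Set X)) (hs : pinskerW μ (fun e x => pw T e x) = MeasurableSpace.generateFrom s)
    (h : ∀ A ∈ s, ∃ B, MeasurableSet[𝒩] B ∧ A =ᵐ[μ] B) : PolC μ T K Q mX ↔ PolC μ T K Q 𝒩 := by
  constructor
  · intro h k hk n q f hqQ hf
    exact h k hk n q f hqQ fun j => ⟨(hf j).1, (hf j).1.1⟩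
  · intro h𝒩
    have hK' : ∀ v w, 1 ≤ v → v + w ∈ K → v + 2 * w ∈ K := by
      intro v w hv hvw
      rcases hK with rfl | rfl
      · rw [Set.mem_singleton_iff] at hvw ⊢
        omega
      · exact Set.mem_univ _
    rw [pinsker_reduction T hT hcomm K hK' Q]
    have h1 : pinskerW μ (fun e x => pw T e x) ≤ eventuallyMeasurableSpace 𝒩 (ae μ) := by
      rw [hs]
      exact MeasurableSpace.generateFrom_le h
    intro k hk n q f hqQ hf
    exact h𝒩 k hk n q f hqQ fun j =>
      ⟨(hf j).1, Pf720gs.aesm_of_mod (fun s hs => h1 s hs) (hf j).2⟩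

end Pool.Agent.Lib.Pf720pp
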