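import Pool.Agent.Lib.Pf720pp.Closure
import Pool.Agent.Lib.Pf720pi.Final

/-!
# The Pinsker reduction for separable polynomial exponents
-/

set_option autoImplicit false
set_option linter.unusedSectionVars false

open Finset MeasureTheory Filter Topology
open scoped ENNReal

namespace Pool.Agent.Lib.Pf720pp

open Pool.Agent.Lib.Pf720ae
open Pool.Agent.Lib.Pf720pi (pinskerW avg_reindex exists_injective)

section shift

variable {κ : Type} [Fintype κ] [DecidableEq κ]

lemma tendsto_shift {u : (κ → ℕ) → ℝ} (hu : ∀ m, |u m| ≤ 1) :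
    Tendsto (fun M : κ → ℕ => (avg M fun m => u (m + 1)) - avg M u) atTop (𝓝 0) := by
  have h1 : Tendsto (fun M : κ → ℕ => ∑ l, 2 * (1 : ℝ) * ((1 : κ → ℕ) l : ℝ) / (M l : ℝ)) atTop
      (𝓝 (∑ _l : κ, 0)) := by
    refine tendsto_finsetSum _ fun l _ => ?_
    exact (tendsto_const_div_atTop_nhds_zero_nat _).comp (Alg.tendsto_coord l)
  rw [Finset.sum_const_zero] at h1
  refine squeeze_zero_norm' ?_ h1
  filter_upwards [eventually_pos] with M hM
  rw [Real.norm_eq_abs]
  exact avg_shift M 1 u hu hM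

lemma cvg_shift {u : (κ → ℕ) → ℝ} (hu : ∀ m, |u m| ≤ 1) :
    Cvg (fun m => u (m + 1)) ↔ Cvg u := by
  have h := tendsto_shift hu
  constructor
  · rintro ⟨L, hL⟩
    refine ⟨L, ?_⟩
    have h1 := hL.sub h
    simp only [sub_sub_cancel, sub_zero] at h1
    exact h1
  · rintro ⟨L, hL⟩
    refine ⟨L, ?_⟩
    have h1 := h.add hL
    simp only [sub_add_cancel, zero_add] at h1
    exact h1

end shift

/-- removing the constant terms -/
noncomputable def unc {d : ℕ} (q : PV d) : PV d := fun i => q i - Polynomial.C ((q i).coeff 0)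

lemma unc_zero {d : ℕ} : unc (0 : PV d) = 0 := by
  funext i
  simp [unc]

lemma unc_coeff {d : ℕ} (q : PV d) (i : Fin d) : (unc q i).coeff 0 = 0 := by
  simp [unc]

/-- the constant term of the exponent -/
def cst {κ : Type} [Fintype κ] {d : ℕ} (q : κ → PV d) : Fin d → ℤ :=
  fun i => ∑ l, (q l i).coeff 0

lemma ev_unc {κ : Type} [Fintype κ] {d : ℕ} (q : κ → PV d) (m : κ → ℕ) :
    ev q m = cst q + ev (fun l => unc (q l)) m := by
  funext i
  simp only [ev, cst, unc, Pi.add_apply, Polynomial.eval_sub, Polynomial.eval_C]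
  rw [← Finset.sum_add_distrib]
  exact Finset.sum_congr rfl fun l _ => by ring

/-- the Pinsker algebra is invariant -/
lemma comap_pinsker {X : Type} {mX : MeasurableSpace X} {μ : Measure X}
    [IsProbabilityMeasure μ] {d : ℕ} (W : (Fin d → ℤ) → X → X)
    (hWadd : ∀ a b x, W (a + b) x = W a (W b x)) (hWmp : ∀ a, MeasurePreserving (W a) μ μ)
    (v : Fin d → ℤ) : MeasurableSpace.comap (W v) (pinskerW μ W) ≤ pinskerW μ W := by
  unfold pinskerW
  rw [MeasurableSpace.comap_generateFrom]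
  refine MeasurableSpace.generateFrom_le ?_
  rintro _ ⟨A, ⟨hA, hAe⟩, rfl⟩
  refine MeasurableSpace.measurableSet_generateFrom ⟨(hWmp v).measurable hA, ?_⟩
  refine hAe.congr fun N => ?_
  congr 1
  refine Finset.sum_congr rfl fun ω _ => ?_
  congr 1
  have e : {x | ∀ u : Fin d → Fin N, W (fun i => ((u i : ℕ) : ℤ)) x ∈ W v ⁻¹' A ↔ u ∈ ω} =
      W v ⁻¹' {x | ∀ u : Fin d → Fin N, W (fun i => ((u i : ℕ) : ℤ)) x ∈ A ↔ u ∈ ω} := by
    ext x
    simp only [Set.mem_ofPred_eq, Set.mem_preimage]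
    refine forall_congr' fun u => ?_
    rw [← hWadd, ← hWadd, add_comm]
  rw [e, measureReal_def, measureReal_def, (hWmp v).measure_preimage]
  have e2 : {x | ∀ u : Fin d → Fin N, W (fun i => ((u i : ℕ) : ℤ)) x ∈ A ↔ u ∈ ω} =
      ⋂ u : Fin d → Fin N, {x | W (fun i => ((u i : ℕ) : ℤ)) x ∈ A ↔ u ∈ ω} := by
    ext x; simp
  rw [e2]
  refine (MeasurableSet.iInter fun u => ?_).nullMeasurableSet
  by_cases hu : u ∈ ω
  · simp only [hu, iff_true]
    exact (hWmp _).measurable hA
  · simp only [hu, iff_false]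
    exact ((hWmp _).measurable hA).compl

/-- unrestricted convergence of all separable polynomial multiple averages of the bounded
functions that are a.e. equal to an `m`-measurable function -/
def PolC {X : Type} {mX : MeasurableSpace X} (μ : Measure X) {d : ℕ} (T : Fin d → Equiv.Perm X)
    (K : Set ℕ) (Q : Set (PV d)) (m : MeasurableSpace X) : Prop :=
  ∀ k ∈ K, ∀ (n : ℕ) (q : Fin n → Fin k → Fin d → Polynomial ℤ) (f : Fin n → X → ℂ),
    (∀ j l, q j l = 0 ∨ q j l ∈ Q) →
    (∀ j, MemLp (f j) ⊤ μ ∧ AEStronglyMeasurable[m] (f j) μ) →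
    ∀ᵐ x ∂μ, ∃ L : ℂ, Tendsto (fun M : Fin k → ℕ => (∏ l, (M l : ℂ))⁻¹ *
      ∑ m ∈ Fintype.piFinset (fun l => Finset.Icc 1 (M l)),
        ∏ j, f j (pw T (fun i => ∑ l, (q j l i).eval (m l : ℤ)) x))
      atTop (𝓝 L)

lemma polR_of_polC {X : Type} {m : MeasurableSpace X} {mX : MeasurableSpace X} {μ : Measure X}
    [IsProbabilityMeasure μ] (hm : m ≤ mX) {d : ℕ} (T : Fin d → Equiv.Perm X)
    (hcomm : ∀ i i', T i * T i' = T i' * T i)
    (hinv : ∀ v : Fin d → ℤ, MeasurableSpace.comap (fun x => pw T v x) m ≤ m)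
    (K : Set ℕ) (Q : Set (PV d))
    (hC : PolC μ T K Q m) : PolR μ K (unc '' Q) (fun e x => pw T e x) m := by
  intro κ _ _ J _ _ q₀ F hκ hq₀ hFm hF1
  classical
  have hex : ∀ j l, ∃ q : PV d, (q = 0 ∨ q ∈ Q) ∧ q₀ j l = unc q := by
    intro j l
    rcases hq₀ j l with h | ⟨q, hq, h⟩
    · exact ⟨0, Or.inl rfl, by rw [h, unc_zero]⟩
    · exact ⟨q, Or.inr hq, h.symm⟩
  choose q hqQ hq using hex
  obtain ⟨n, hn⟩ : ∃ n, n = Fintype.card J := ⟨_, rfl⟩
  set eκ : κ ≃ Fin (Fintype.card κ) := Fintype.equivFin κ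
  set eJ : J ≃ Fin (Fintype.card J) := Fintype.equivFin J
  have hFm' : ∀ j, Measurable[m] fun x => F j (pw T (-cst (q j)) x) := by
    intro j
    have h1 : Measurable[m.comap (fun x => pw T (-cst (q j)) x)] fun x =>
        F j (pw T (-cst (q j)) x) := by
      intro s hs
      exact ⟨F j ⁻¹' s, hFm j hs, rfl⟩
    exact h1.mono (hinv _) le_rfl
  have h1 := hC _ hκ (Fintype.card J) (fun j l => q (eJ.symm j) (eκ.symm l))
    (fun j x => ((F (eJ.symm j) (pw T (-cst (q (eJ.symm j))) x) : ℝ) : ℂ))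
    (fun j l => hqQ _ _) (fun j => ⟨?_, ?_⟩)
  · filter_upwards [h1] with x hx
    obtain ⟨L, hL⟩ := hx
    have h2 := (Complex.continuous_re.tendsto L).comp hL
    have hre : Tendsto (fun M : κ → ℕ => fun l : Fin (Fintype.card κ) => M (eκ.symm l))
        atTop atTop := by
      rw [tendsto_atTop]
      intro b
      filter_upwards [eventually_ge_atTop (fun l : κ => b (eκ l))] with M hM l
      have := hM (eκ.symm l)
      simpa using this
    refine (cvg_shift (u := fun m : κ → ℕ => ∏ j, F j (pw T (ev (q₀ j) m) x))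
      (fun m => abs_prod_le_one _ _ fun j => hF1 j _)).1 ?_
    refine ⟨L.re, (h2.comp hre).congr fun M => ?_⟩
    rw [avg_reindex eκ M]
    simp only [Function.comp]
    rw [sum_Icc_eq]
    unfold avg Pool.Agent.Lib.Pf720ae.box
    have e1 : ∀ m : Fin (Fintype.card κ) → ℕ, ∏ j : Fin (Fintype.card J),
        ((F (eJ.symm j) (pw T (-cst (q (eJ.symm j)))
          (pw T (fun i => ∑ l, (q (eJ.symm j) (eκ.symm l) i).eval (((m + 1) l : ℕ) : ℤ)) x)) : ℝ) : ℂ) =
        ((∏ j, F j (pw T (ev (q₀ j) ((fun l => m (eκ l)) + 1)) x) : ℝ) : ℂ) := by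
      intro m
      rw [← Complex.ofReal_prod]
      congr 1
      refine Fintype.prod_equiv eJ.symm _ _ fun j => ?_
      have e2 : pw T (ev (q₀ (eJ.symm j)) ((fun l => m (eκ l)) + 1)) =
          pw T (-cst (q (eJ.symm j))) * pw T (fun i => ∑ l,
            (q (eJ.symm j) (eκ.symm l) i).eval (((m + 1) l : ℕ) : ℤ)) := by
        rw [← pw_add T hcomm]
        congr 1
        have e3 : q₀ (eJ.symm j) = fun l => unc (q (eJ.symm j) l) := funext fun l => hq _ _
        have e4 := ev_unc (q (eJ.symm j)) ((fun l => m (eκ l)) + 1)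
        rw [e3]
        have e5 : (fun i => ∑ l, (q (eJ.symm j) (eκ.symm l) i).eval (((m + 1) l : ℕ) : ℤ)) =
            ev (q (eJ.symm j)) ((fun l => m (eκ l)) + 1) := by
          funext i
          unfold ev
          refine Fintype.sum_equiv eκ.symm _ _ fun l => ?_
          simp
        rw [e5, e4, neg_add_cancel_left]
      rw [e2]
      rfl
    simp only [e1]
    rw [← Complex.ofReal_sum]
    have e3 : (∏ l : Fin (Fintype.card κ), ((M (eκ.symm l) : ℕ) : ℂ))⁻¹ =
        (((∏ l : Fin (Fintype.card κ), ((M (eκ.symm l) : ℕ) : ℝ))⁻¹ : ℝ) : ℂ) := by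
      push_cast
      rfl
    rw [e3, ← Complex.ofReal_mul, Complex.ofReal_re]
  · refine MemLp.of_bound ?_ 1 (Eventually.of_forall fun x => ?_)
    · exact (Complex.measurable_ofReal.comp ((hFm' _).mono hm le_rfl)).aestronglyMeasurable
    · rw [Complex.norm_real]
      exact hF1 _ _
  · exact (Complex.measurable_ofReal.comp (hFm' _)).aestronglyMeasurable

theorem polC_of_polR {X : Type} {mX : MeasurableSpace X} {μ : Measure X}
    [IsProbabilityMeasure μ] {d : ℕ} (T : Fin d → Equiv.Perm X)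
    (hT : ∀ i, Measurable (T i) ∧ Measurable (T i).symm ∧ MeasurePreserving (T i) μ μ)
    (hcomm : ∀ i i', T i * T i' = T i' * T i) (K : Set ℕ) (Q : Set (PV d))
    (hR : PolR μ K (unc '' Q) (fun e x => pw T e x) mX) : PolC μ T K Q mX := by
  intro k hk n q f hqQ hf
  have h1 := lift_complex (μ := μ) (κ := Fin k)
    (fun j m => pw T (ev (q j) (m + 1))) (fun j m => mp_pw T hT _) ?_ f
    (fun j => (hf j).1)
  · filter_upwards [h1] with x hx
    obtain ⟨L, hL⟩ := hx
    refine ⟨L, hL.congr fun M => ?_⟩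
    rw [sum_Icc_eq]
    rfl
  · intro F hFm hF1
    have h2 := hR (Fin k) (Fin n) (fun j l => unc (q j l))
      (fun j x => F j (pw T (cst (q j)) x)) (by rw [Fintype.card_fin]; exact hk)
      (fun j l => by
        rcases hqQ j l with h | h
        · rw [h]; exact Or.inl unc_zero
        · exact Or.inr ⟨_, h, rfl⟩)
      (fun j => (hFm j).comp (mp_pw T hT _).measurable) (fun j x => hF1 j _)
    filter_upwards [h2] with x hx
    have h3 : Cvg fun m : Fin k → ℕ => ∏ j, F j (pw T (ev (q j) m) x) := by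
      refine hx.congr fun m => Finset.prod_congr rfl fun j _ => ?_
      rw [ev_unc (q j) m, pw_add T hcomm (cst (q j))]
      rfl
    exact (cvg_shift (u := fun m : Fin k → ℕ => ∏ j, F j (pw T (ev (q j) m) x))
      (fun m => abs_prod_le_one _ _ fun j => hF1 j _)).2 h3

/-- the Pinsker reduction for separable polynomial exponents -/
theorem pinsker_reduction {X : Type} {mX : MeasurableSpace X} {μ : Measure X}
    [IsProbabilityMeasure μ] {d : ℕ} (T : Fin d → Equiv.Perm X)
    (hT : ∀ i, Measurable (T i) ∧ Measurable (T i).symm ∧ MeasurePreserving (T i) μ μ)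
    (hcomm : ∀ i i', T i * T i' = T i' * T i) (K : Set ℕ)
    (hK : ∀ v w, 1 ≤ v → v + w ∈ K → v + 2 * w ∈ K) (Q : Set (Fin d → Polynomial ℤ)) :
    PolC μ T K Q mX ↔ PolC μ T K Q (pinskerW μ fun e x => pw T e x) := by
  have hle : pinskerW μ (fun e x => pw T e x) ≤ mX := by
    refine MeasurableSpace.generateFrom_le ?_
    rintro s ⟨hs, -⟩
    exact hs
  constructor
  · intro h k hk n q f hqQ hf
    exact h k hk n q f hqQ fun j => ⟨(hf j).1, (hf j).1.1⟩
  · intro h
    refine polC_of_polR T hT hcomm K Q ?_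
    obtain ⟨φ, hφ⟩ := exists_injective d
    refine polR_of_pinsker (fun e x => pw T e x) (fun x => by rw [pw_zero]; rfl)
      (fun a b x => by rw [pw_add T hcomm]; rfl) (fun a => mp_pw T hT a) φ hφ K hK (unc '' Q)
      ?_ (polR_of_polC hle T hcomm (fun v => ?_) K Q h)
    · rintro _ ⟨q, -, rfl⟩ i
      exact unc_coeff q i
    · exact comap_pinsker (fun e x => pw T e x) (fun a b x => by rw [pw_add T hcomm]; rfl)
        (fun a => mp_pw T hT a) v

end Pool.Agent.Lib.Pf720pp
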