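import Pool.Agent.Lib.Pf720ae.Alg.AE
import Pool.Agent.Lib.Pf720pi.Core

/-!
# Orthogonality of products of delayed martingale differences, and almost sure convergence:
general exponents
-/

set_option autoImplicit false
set_option linter.unusedSectionVars false

open Finset MeasureTheory Filter Topology
open scoped ENNReal

namespace Pool.Agent.Lib.Pf720pp

open Pool.Agent.Lib.Pf720ae

namespace CoreAux

variable {κ : Type} [Fintype κ] [DecidableEq κ]

/-- the number of points of the line through `m` in direction `l` where `f` is small -/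
def LineBd (f : (κ → ℕ) → ℝ) (l : κ) (p C : ℝ) : Prop :=
  ∀ (m : κ → ℕ) (a : ℝ) (N : ℕ),
    (((range N).filter fun t : ℕ => |a + f (Function.update m l t)| ≤ p).card : ℝ) ≤ C

lemma LineBd.nonneg {f : (κ → ℕ) → ℝ} {l : κ} {p C : ℝ} (h : LineBd f l p C) : 0 ≤ C := by
  have := h 0 0 0
  simpa using this

/-- density of the points where two forms are close -/
lemma bad_density {ψ₁ ψ₂ : (κ → ℕ) → ℝ} {l : κ} {p C : ℝ}
    (hl : LineBd (fun m => ψ₁ m - ψ₂ m) l p C) (M : κ → ℕ) (hM : ∀ l, 0 < M l) :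
    avg M (fun m => if |ψ₁ m - ψ₂ m| ≤ p then (1 : ℝ) else 0) ≤ C / M l := by
  have hMl : (0 : ℝ) < M l := by exact_mod_cast hM l
  have hC := hl.nonneg
  rw [Alg.avg_update M hM l]
  refine avg_le_of_le (by positivity) fun m => ?_
  rw [inv_mul_eq_div]
  refine div_le_div_of_nonneg_right ?_ hMl.le
  rw [← Finset.sum_filter, Finset.sum_const, nsmul_eq_mul, mul_one]
  have := hl m 0 (M l)
  simpa using this

section orth

variable {J : Type} [Fintype J] [DecidableEq J] {X : Type} {mX : MeasurableSpace X}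
  {μ : Measure X}

lemma abs_prod_le_one {ι : Type*} (S : Finset ι) {f : ι → ℝ} (hf : ∀ i ∈ S, |f i| ≤ 1) :
    |∏ i ∈ S, f i| ≤ 1 := by
  rw [Finset.abs_prod]
  exact Finset.prod_le_one (fun i _ => abs_nonneg _) hf

/-- the integral of a product vanishes if one factor is the most recent one -/
lemma orth_one (F : ℝ → MeasurableSpace X) {p : ℝ} (Y : J → (κ → ℕ) → X → ℝ)
    (ψ : J → (κ → ℕ) → ℝ) (hY1 : ∀ j m x, |Y j m x| ≤ 1)
    (hYm : ∀ j m s, ψ j m < s → Measurable[F s] (Y j m))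
    (hY0 : ∀ j m (h : X → ℝ), Measurable[F (ψ j m - p)] h → (∀ x, |h x| ≤ 1) →
      ∫ x, Y j m x * h x ∂μ = 0)
    (W : (κ → ℕ) → X → ℝ) (hW1 : ∀ m x, |W m x| ≤ 1) (hWm : ∀ m s, Measurable[F s] (W m))
    (S : Finset J) {j₀ : J} (hj₀ : j₀ ∈ S) (m m' : κ → ℕ)
    (h1 : ∀ j ∈ S, j ≠ j₀ → ψ j m < ψ j₀ m - p)
    (h2 : ∀ j ∈ S, ψ j m' < ψ j₀ m - p) :
    ∫ x, ((∏ j ∈ S, Y j m x) * W m x) * ((∏ j ∈ S, Y j m' x) * W m' x) ∂μ = 0 := by
  have h3 : ∀ x, ((∏ j ∈ S, Y j m x) * W m x) * ((∏ j ∈ S, Y j m' x) * W m' x) =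
      Y j₀ m x * (((∏ j ∈ S.erase j₀, Y j m x) * W m x) *
        ((∏ j ∈ S, Y j m' x) * W m' x)) := by
    intro x
    rw [← Finset.mul_prod_erase S (fun j => Y j m x) hj₀]
    ring
  simp_rw [h3]
  refine hY0 j₀ m _ ?_ fun x => ?_
  · refine Measurable.mul (Measurable.mul ?_ (hWm _ _)) (Measurable.mul ?_ (hWm _ _))
    · exact Finset.measurable_fun_prod _ fun j hj =>
        hYm j m _ (h1 j (Finset.mem_of_mem_erase hj) (Finset.ne_of_mem_erase hj))
    · exact Finset.measurable_fun_prod _ fun j hj => hYm j m' _ (h2 j hj)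
  · rw [abs_mul, abs_mul, abs_mul]
    have a1 := abs_prod_le_one (S.erase j₀) (f := fun j => Y j m x) fun j _ => hY1 j m x
    have a2 := abs_prod_le_one S (f := fun j => Y j m' x) fun j _ => hY1 j m' x
    have a3 := hW1 m x
    have a4 := hW1 m' x
    have b1 : |∏ j ∈ S.erase j₀, Y j m x| * |W m x| ≤ 1 :=
      mul_le_one₀ a1 (abs_nonneg _) a3
    have b2 : |∏ j ∈ S, Y j m' x| * |W m' x| ≤ 1 :=
      mul_le_one₀ a2 (abs_nonneg _) a4
    exact mul_le_one₀ b1 (by positivity) b2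

/-- two good points whose values are far apart are orthogonal -/
lemma orth_two (F : ℝ → MeasurableSpace X) {p : ℝ} (Y : J → (κ → ℕ) → X → ℝ)
    (ψ : J → (κ → ℕ) → ℝ) (hY1 : ∀ j m x, |Y j m x| ≤ 1)
    (hYm : ∀ j m s, ψ j m < s → Measurable[F s] (Y j m))
    (hY0 : ∀ j m (h : X → ℝ), Measurable[F (ψ j m - p)] h → (∀ x, |h x| ≤ 1) →
      ∫ x, Y j m x * h x ∂μ = 0)
    (W : (κ → ℕ) → X → ℝ) (hW1 : ∀ m x, |W m x| ≤ 1) (hWm : ∀ m s, Measurable[F s] (W m))
    (S : Finset J) (hS : S.Nonempty) (m m' : κ → ℕ)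
    (hg : ∀ i j, i ≠ j → p < |ψ i m - ψ j m|)
    (hg' : ∀ i j, i ≠ j → p < |ψ i m' - ψ j m'|)
    (hsep : ∀ i ∈ S, ∀ j ∈ S, p < |ψ i m - ψ j m'|) :
    ∫ x, ((∏ j ∈ S, Y j m x) * W m x) * ((∏ j ∈ S, Y j m' x) * W m' x) ∂μ = 0 := by
  obtain ⟨i₀, hi₀, hmax⟩ := S.exists_max_image (fun j => ψ j m) hS
  obtain ⟨j₀, hj₀, hmax'⟩ := S.exists_max_image (fun j => ψ j m') hS
  have key : ∀ a b : ℝ, a ≤ b → p < |b - a| → a < b - p := by
    intro a b hab h
    rw [abs_of_nonneg (sub_nonneg.2 hab)] at h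
    linarith
  rcases le_total (ψ j₀ m') (ψ i₀ m) with h | h
  · refine orth_one F Y ψ hY1 hYm hY0 W hW1 hWm S hi₀ m m' (fun j hj hne => ?_) fun j hj => ?_
    · exact key _ _ (hmax j hj) (hg i₀ j (Ne.symm hne))
    · exact key _ _ ((hmax' j hj).trans h) (hsep i₀ hi₀ j hj)
  · have := orth_one F Y ψ hY1 hYm hY0 W hW1 hWm S hj₀ m' m (fun j hj hne => ?_) fun j hj => ?_
    · rw [← this]
      congr 1
      funext x
      ring
    · exact key _ _ (hmax' j hj) (hg' j₀ j (Ne.symm hne))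
    · refine key _ _ ((hmax j hj).trans h) ?_
      rw [abs_sub_comm]
      exact hsep j hj j₀ hj₀

/-- the point `m` is good: all forms are far apart -/
def Good (ψ : J → (κ → ℕ) → ℝ) (p : ℝ) (m : κ → ℕ) : Prop :=
  ∀ i j, i ≠ j → p < |ψ i m - ψ j m|

open Classical in
/-- the good part of the product over `S` -/
noncomputable def vv (ψ : J → (κ → ℕ) → ℝ) (p : ℝ) (Y : J → (κ → ℕ) → X → ℝ)
    (W : (κ → ℕ) → X → ℝ) (S : Finset J) (m : κ → ℕ) (x : X) : ℝ :=
  if Good ψ p m then (∏ j ∈ S, Y j m x) * W m x else 0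

lemma abs_vv_le (ψ : J → (κ → ℕ) → ℝ) (p : ℝ) {Y : J → (κ → ℕ) → X → ℝ}
    (hY1 : ∀ j m x, |Y j m x| ≤ 1) {W : (κ → ℕ) → X → ℝ} (hW1 : ∀ m x, |W m x| ≤ 1)
    (S : Finset J) (m : κ → ℕ) (x : X) : |vv ψ p Y W S m x| ≤ 1 := by
  unfold vv
  split_ifs
  · rw [abs_mul]
    exact mul_le_one₀ (abs_prod_le_one S fun j _ => hY1 j m x) (abs_nonneg _) (hW1 m x)
  · simp

lemma measurable_vv (ψ : J → (κ → ℕ) → ℝ) (p : ℝ) {Y : J → (κ → ℕ) → X → ℝ}
    (hY : ∀ j m, Measurable (Y j m)) {W : (κ → ℕ) → X → ℝ} (hW : ∀ m, Measurable (W m))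
    (S : Finset J) (m : κ → ℕ) : Measurable (vv ψ p Y W S m) := by
  unfold vv
  split_ifs
  · exact (Finset.measurable_fun_prod _ fun j _ => hY j m).mul (hW m)
  · exact measurable_const

open Classical in
/-- the correlation of two points of the good part -/
lemma corr_le [IsProbabilityMeasure μ] (F : ℝ → MeasurableSpace X) {p : ℝ}
    (Y : J → (κ → ℕ) → X → ℝ)
    (ψ : J → (κ → ℕ) → ℝ) (hY1 : ∀ j m x, |Y j m x| ≤ 1)
    (hYm : ∀ j m s, ψ j m < s → Measurable[F s] (Y j m))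
    (hY0 : ∀ j m (h : X → ℝ), Measurable[F (ψ j m - p)] h → (∀ x, |h x| ≤ 1) →
      ∫ x, Y j m x * h x ∂μ = 0)
    (W : (κ → ℕ) → X → ℝ) (hW1 : ∀ m x, |W m x| ≤ 1) (hWm : ∀ m s, Measurable[F s] (W m))
    (S : Finset J) (hS : S.Nonempty) (m m' : κ → ℕ) :
    ∫ x, vv ψ p Y W S m x * vv ψ p Y W S m' x ∂μ ≤
      ∑ i ∈ S, ∑ j ∈ S, if |ψ i m - ψ j m'| ≤ p then (1 : ℝ) else 0 := by
  by_cases hsep : ∀ i ∈ S, ∀ j ∈ S, p < |ψ i m - ψ j m'|
  · have h0 : ∫ x, vv ψ p Y W S m x * vv ψ p Y W S m' x ∂μ = 0 := by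
      by_cases hg : Good ψ p m
      · by_cases hg' : Good ψ p m'
        · have := orth_two (μ := μ) F Y ψ hY1 hYm hY0 W hW1 hWm S hS m m' hg hg' hsep
          simpa only [vv, if_pos hg, if_pos hg'] using this
        · simp [vv, if_neg hg']
      · simp [vv, if_neg hg]
    rw [h0]
    exact Finset.sum_nonneg fun i _ => Finset.sum_nonneg fun j _ => by split_ifs <;> norm_num
  · push Not at hsep
    obtain ⟨i, hi, j, hj, hij⟩ := hsep
    have h1 : ∫ x, vv ψ p Y W S m x * vv ψ p Y W S m' x ∂μ ≤ 1 := by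
      have h2 : |∫ x, vv ψ p Y W S m x * vv ψ p Y W S m' x ∂μ| ≤ 1 := by
        have := norm_integral_le_of_norm_le_const (μ := μ) (C := 1)
          (f := fun x => vv ψ p Y W S m x * vv ψ p Y W S m' x)
          (Eventually.of_forall fun x => by
            rw [Real.norm_eq_abs, abs_mul]
            exact mul_le_one₀ (abs_vv_le ψ p hY1 hW1 S m x) (abs_nonneg _)
              (abs_vv_le ψ p hY1 hW1 S m' x))
        simpa using this
      exact (le_abs_self _).trans h2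
    refine h1.trans ?_
    calc (1 : ℝ) = if |ψ i m - ψ j m'| ≤ p then (1 : ℝ) else 0 := by rw [if_pos hij]
      _ ≤ ∑ j ∈ S, if |ψ i m - ψ j m'| ≤ p then (1 : ℝ) else 0 :=
        Finset.single_le_sum
          (f := fun j => if |ψ i m - ψ j m'| ≤ p then (1 : ℝ) else 0)
          (fun j _ => by split_ifs <;> norm_num) hj
      _ ≤ _ := Finset.single_le_sum
          (f := fun i => ∑ j ∈ S, if |ψ i m - ψ j m'| ≤ p then (1 : ℝ) else 0)
          (fun i _ => Finset.sum_nonneg fun j _ => by split_ifs <;> norm_num) hi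

open Classical in
lemma bad_nonneg (ψ : J → (κ → ℕ) → ℝ) (p : ℝ) (m : κ → ℕ) (q : J × J) :
    0 ≤ (if q.1 ≠ q.2 then
      (if |ψ q.1 m - ψ q.2 m| ≤ p then (1 : ℝ) else 0) else 0) := by
  split_ifs <;> norm_num

open Classical in
lemma one_le_bad {ψ : J → (κ → ℕ) → ℝ} {p : ℝ} {m : κ → ℕ} (hg : ¬ Good ψ p m) :
    (1 : ℝ) ≤ ∑ q : J × J, if q.1 ≠ q.2 then
      (if |ψ q.1 m - ψ q.2 m| ≤ p then (1 : ℝ) else 0) else 0 := by
  unfold Good at hg
  push Not at hg
  obtain ⟨i, j, hij, hle'⟩ := hg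
  have h1 := Finset.single_le_sum (f := fun q : J × J => if q.1 ≠ q.2 then
      (if |ψ q.1 m - ψ q.2 m| ≤ p then (1 : ℝ) else 0) else 0)
      (fun q _ => bad_nonneg ψ p m q) (Finset.mem_univ (i, j))
  have h2 : (if (i, j).1 ≠ (i, j).2 then
      (if |ψ (i, j).1 m - ψ (i, j).2 m| ≤ p then (1 : ℝ) else 0) else 0) = 1 := by
    simp [hij, hle']
  rw [h2] at h1
  exact h1

lemma integrable_bdd [IsProbabilityMeasure μ] {f : X → ℝ} (hf : Measurable f) {C : ℝ}
    (hC : ∀ x, |f x| ≤ C) : Integrable f μ :=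
  Integrable.of_bound hf.aestronglyMeasurable C (Eventually.of_forall fun x => by
    rw [Real.norm_eq_abs]; exact hC x)

/-- the mean square of the averages along a line -/
lemma line_bound [IsProbabilityMeasure μ] (F : ℝ → MeasurableSpace X) (hle : ∀ t, F t ≤ mX)
    {p : ℝ} (hp : 0 ≤ p)
    (Y : J → (κ → ℕ) → X → ℝ)
    (ψ : J → (κ → ℕ) → ℝ) (hY1 : ∀ j m x, |Y j m x| ≤ 1)
    (hYm : ∀ j m s, ψ j m < s → Measurable[F s] (Y j m))
    (hY0 : ∀ j m (h : X → ℝ), Measurable[F (ψ j m - p)] h → (∀ x, |h x| ≤ 1) →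
      ∫ x, Y j m x * h x ∂μ = 0)
    (W : (κ → ℕ) → X → ℝ) (hW1 : ∀ m x, |W m x| ≤ 1) (hWm : ∀ m s, Measurable[F s] (W m))
    (S : Finset J) (hS : S.Nonempty) (l : κ) (C : J → ℝ)
    (hl : ∀ j ∈ S, LineBd (ψ j) l p (C j))
    (m : κ → ℕ) {N : ℕ} (hN : 0 < N) :
    ∫ x, ((N : ℝ)⁻¹ * ∑ t ∈ range N, vv ψ p Y W S (Function.update m l t) x) ^ 2 ∂μ ≤
      (∑ _i ∈ S, ∑ j ∈ S, C j) / N := by
  have hN' : (0 : ℝ) < N := by exact_mod_cast hN
  have hYM : ∀ j m, Measurable (Y j m) := fun j m =>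
    (hYm j m (ψ j m + 1) (by linarith)).mono (hle _) le_rfl
  have hWM : ∀ m, Measurable (W m) := fun m => (hWm m 0).mono (hle _) le_rfl
  set v : ℕ → X → ℝ := fun t => vv ψ p Y W S (Function.update m l t) with hv
  have hvm : ∀ t, Measurable (v t) := fun t => measurable_vv ψ p hYM hWM S _
  have hv1 : ∀ t x, |v t x| ≤ 1 := fun t x => abs_vv_le ψ p hY1 hW1 S _ x
  have h1 : ∀ x, ((N : ℝ)⁻¹ * ∑ t ∈ range N, vv ψ p Y W S (Function.update m l t) x) ^ 2 =
      (N : ℝ)⁻¹ ^ 2 * ∑ t ∈ range N, ∑ t' ∈ range N, v t x * v t' x := by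
    intro x
    rw [mul_pow, sq (∑ t ∈ range N, _), Finset.sum_mul_sum]
  simp_rw [h1]
  have hI : ∀ t t', Integrable (fun x => v t x * v t' x) μ := fun t t' =>
    integrable_bdd ((hvm t).mul (hvm t')) (C := 1) fun x => by
      rw [abs_mul]
      exact mul_le_one₀ (hv1 t x) (abs_nonneg _) (hv1 t' x)
  rw [integral_const_mul, integral_finsetSum _ fun t _ => integrable_finsetSum _ fun t' _ =>
    hI t t']
  have h2 : ∀ t ∈ range N, ∫ x, ∑ t' ∈ range N, v t x * v t' x ∂μ ≤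
      ∑ _i ∈ S, ∑ j ∈ S, C j := by
    intro t _
    rw [integral_finsetSum _ fun t' _ => hI t t']
    classical
    refine (Finset.sum_le_sum fun t' _ => corr_le (μ := μ) F Y ψ hY1 hYm hY0 W hW1 hWm S hS
      (Function.update m l t) (Function.update m l t')).trans ?_
    rw [Finset.sum_comm]
    refine Finset.sum_le_sum fun i _ => ?_
    rw [Finset.sum_comm]
    refine Finset.sum_le_sum fun j hj => ?_
    rw [← Finset.sum_filter, Finset.sum_const, nsmul_eq_mul, mul_one]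
    have h3 := hl j hj m (-ψ i (Function.update m l t)) N
    refine le_trans (le_of_eq ?_) h3
    congr 2
    ext t'
    simp only [Finset.mem_filter]
    rw [abs_sub_comm, neg_add_eq_sub]
  calc (N : ℝ)⁻¹ ^ 2 * ∑ t ∈ range N, ∫ x, ∑ t' ∈ range N, v t x * v t' x ∂μ
      ≤ (N : ℝ)⁻¹ ^ 2 * ∑ t ∈ range N, ∑ _i ∈ S, ∑ j ∈ S, C j := by
        refine mul_le_mul_of_nonneg_left (Finset.sum_le_sum h2) (by positivity)
    _ = (∑ _i ∈ S, ∑ j ∈ S, C j) / N := by
        rw [Finset.sum_const, card_range, nsmul_eq_mul]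
        field_simp

end orth

lemma avg_sq_le (M : κ → ℕ) (hM : ∀ l, 0 < M l) (Φ : (κ → ℕ) → ℝ) :
    (avg M Φ) ^ 2 ≤ avg M fun m => Φ m ^ 2 := by
  have hP := prod_cast_pos hM
  unfold avg
  have h := sq_sum_le_card_mul_sum_sq (s := box M) (f := Φ)
  rw [card_box] at h
  push_cast at h
  rw [mul_pow]
  calc (∏ l, (M l : ℝ))⁻¹ ^ 2 * (∑ m ∈ box M, Φ m) ^ 2
      ≤ (∏ l, (M l : ℝ))⁻¹ ^ 2 * ((∏ l, (M l : ℝ)) * ∑ m ∈ box M, Φ m ^ 2) := by gcongr
    _ = (∏ l, (M l : ℝ))⁻¹ * ∑ m ∈ box M, Φ m ^ 2 := by field_simp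

open Classical in
/-- the mean square of the averages of the good part -/
lemma mean_sq_le {J : Type} [Fintype J] [DecidableEq J] {X : Type} {mX : MeasurableSpace X}
    {μ : Measure X} [IsProbabilityMeasure μ] (F : ℝ → MeasurableSpace X) (hle : ∀ t, F t ≤ mX)
    {p : ℝ} (hp : 0 ≤ p)
    (Y : J → (κ → ℕ) → X → ℝ)
    (ψ : J → (κ → ℕ) → ℝ) (hY1 : ∀ j m x, |Y j m x| ≤ 1)
    (hYm : ∀ j m s, ψ j m < s → Measurable[F s] (Y j m))
    (hY0 : ∀ j m (h : X → ℝ), Measurable[F (ψ j m - p)] h → (∀ x, |h x| ≤ 1) →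
      ∫ x, Y j m x * h x ∂μ = 0)
    (l : κ) (S : Finset J) (hSne : S.Nonempty)
    (hYinv : ∀ j ∉ S, ∀ m t x, Y j (Function.update m l t) x = Y j (Function.update m l 0) x)
    (W : (κ → ℕ) → X → ℝ) (hW1 : ∀ m x, |W m x| ≤ 1) (hWm : ∀ m s, Measurable[F s] (W m))
    (C : J → ℝ) (hC : ∀ j ∈ S, LineBd (ψ j) l p (C j))
    (M : κ → ℕ) (hM : ∀ l, 0 < M l) :
    ∫ x, (avg M fun m => vv ψ p Y W Finset.univ m x) ^ 2 ∂μ ≤
      (∑ _i ∈ S, ∑ j ∈ S, C j) / M l := by
  have hYM : ∀ j m, Measurable (Y j m) := fun j m =>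
    (hYm j m (ψ j m + 1) (by linarith)).mono (hle _) le_rfl
  have hWM : ∀ m, Measurable (W m) := fun m => (hWm m 0).mono (hle _) le_rfl
  have hMl : (0 : ℝ) < M l := by exact_mod_cast hM l
  -- pointwise bound
  have hpt : ∀ x, (avg M fun m => vv ψ p Y W Finset.univ m x) ^ 2 ≤ avg M fun m =>
      ((M l : ℝ)⁻¹ * ∑ t ∈ range (M l), vv ψ p Y W S (Function.update m l t) x) ^ 2 := by
    intro x
    rw [Alg.avg_update M hM l]
    refine (avg_sq_le M hM _).trans (avg_mono M fun m => ?_)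
    rw [← sq_abs ((M l : ℝ)⁻¹ * ∑ t ∈ range (M l), vv ψ p Y W Finset.univ (Function.update m l t) x),
      ← sq_abs ((M l : ℝ)⁻¹ * ∑ t ∈ range (M l), vv ψ p Y W S (Function.update m l t) x)]
    refine pow_le_pow_left₀ (abs_nonneg _) ?_ 2
    have h3 : ∑ t ∈ range (M l), vv ψ p Y W Finset.univ (Function.update m l t) x =
        (∏ j ∈ Finset.univ.filter (fun j => ¬ j ∈ S), Y j (Function.update m l 0) x) *
        ∑ t ∈ range (M l), vv ψ p Y W S (Function.update m l t) x := by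
      rw [Finset.mul_sum]
      refine Finset.sum_congr rfl fun t _ => ?_
      simp only [vv]
      split_ifs with hg
      · rw [← Finset.prod_filter_mul_prod_filter_not Finset.univ (fun j => j ∈ S)]
        have h4 : ∏ j ∈ Finset.univ.filter (fun j => ¬ j ∈ S), Y j (Function.update m l t) x =
            ∏ j ∈ Finset.univ.filter (fun j => ¬ j ∈ S), Y j (Function.update m l 0) x :=
          Finset.prod_congr rfl fun j hj => hYinv j (Finset.mem_filter.1 hj).2 m t x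
        have h5 : Finset.univ.filter (fun j => j ∈ S) = S := by ext j; simp
        rw [h4, h5]
        ring
      · ring
    rw [h3, abs_mul, abs_mul, abs_mul]
    have h5 := abs_prod_le_one (Finset.univ.filter (fun j => ¬ j ∈ S))
      (f := fun j => Y j (Function.update m l 0) x) fun j _ => hY1 j _ x
    calc |(M l : ℝ)⁻¹| * (|∏ j ∈ Finset.univ.filter (fun j => ¬ j ∈ S),
          Y j (Function.update m l 0) x| *
          |∑ t ∈ range (M l), vv ψ p Y W S (Function.update m l t) x|)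
        ≤ |(M l : ℝ)⁻¹| * (1 *
          |∑ t ∈ range (M l), vv ψ p Y W S (Function.update m l t) x|) := by gcongr
      _ = _ := by rw [one_mul]
  -- integrate
  have hvm : ∀ m, Measurable fun x =>
      ((M l : ℝ)⁻¹ * ∑ t ∈ range (M l), vv ψ p Y W S (Function.update m l t) x) ^ 2 :=
    fun m => ((Finset.measurable_fun_sum _ fun t _ =>
      measurable_vv ψ p hYM hWM S _).const_mul _).pow_const 2
  have hvb : ∀ m x, |((M l : ℝ)⁻¹ * ∑ t ∈ range (M l),
      vv ψ p Y W S (Function.update m l t) x) ^ 2| ≤ 1 := by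
    intro m x
    rw [abs_pow]
    refine pow_le_one₀ (abs_nonneg _) ?_
    rw [abs_mul, abs_of_pos (inv_pos.2 hMl), inv_mul_le_iff₀ hMl, mul_one]
    refine (Finset.abs_sum_le_sum_abs _ _).trans ?_
    refine (Finset.sum_le_sum fun t _ => abs_vv_le ψ p hY1 hW1 S _ x).trans ?_
    simp
  have hI : ∀ m, Integrable (fun x =>
      ((M l : ℝ)⁻¹ * ∑ t ∈ range (M l), vv ψ p Y W S (Function.update m l t) x) ^ 2) μ :=
    fun m => integrable_bdd (hvm m) (hvb m)
  calc ∫ x, (avg M fun m => vv ψ p Y W Finset.univ m x) ^ 2 ∂μ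
      ≤ ∫ x, (avg M fun m => ((M l : ℝ)⁻¹ * ∑ t ∈ range (M l),
          vv ψ p Y W S (Function.update m l t) x) ^ 2) ∂μ := by
        refine integral_mono_of_nonneg (Eventually.of_forall fun x => sq_nonneg _) ?_
          (Eventually.of_forall hpt)
        unfold avg
        exact (integrable_finsetSum _ fun m _ => hI m).const_mul _
    _ = avg M fun m => ∫ x, ((M l : ℝ)⁻¹ * ∑ t ∈ range (M l),
          vv ψ p Y W S (Function.update m l t) x) ^ 2 ∂μ := by
        unfold avg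
        rw [integral_const_mul, integral_finsetSum _ fun m _ => hI m]
    _ ≤ _ := by
        refine avg_le_of_le (div_nonneg (Finset.sum_nonneg fun i _ =>
            Finset.sum_nonneg fun j hj => (hC j hj).nonneg) hMl.le) fun m => ?_
        exact line_bound F hle hp Y ψ hY1 hYm hY0 W hW1 hWm S hSne l C hC m (hM l)

/-- mean-square bounds imply convergence -/
lemma ae_of_bound [Nonempty κ] {X : Type} {mX : MeasurableSpace X} {μ : Measure X}
    [IsProbabilityMeasure μ] {u : (κ → ℕ) → X → ℝ} (hum : ∀ m, Measurable (u m))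
    (hu1 : ∀ m x, |u m x| ≤ 1) (C : κ → ℝ) (hC0 : ∀ l, 0 ≤ C l)
    (hmain : ∀ M : κ → ℕ, (∀ l, 0 < M l) → ∀ l,
      ∫ x, (avg M fun m => u m x) ^ 2 ∂μ ≤ C l / M l) :
    ∀ᵐ x ∂μ, Tendsto (fun M : κ → ℕ => avg M fun m => u m x) atTop (𝓝 0) := by
  obtain ⟨A, hA⟩ : ∃ A : ℝ, A = ∑ l, C l := ⟨_, rfl⟩
  have hA0 : 0 ≤ A := by rw [hA]; exact Finset.sum_nonneg fun l _ => hC0 l
  obtain ⟨c, hc⟩ : ∃ c : ℝ, c = (1 + A)⁻¹ := ⟨_, rfl⟩
  have hA1 : 0 < 1 + A := by linarith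
  have hc0 : 0 < c := by rw [hc]; exact inv_pos.2 hA1
  have hc1 : c ≤ 1 := by rw [hc]; exact inv_le_one_of_one_le₀ (le_add_of_nonneg_right hA0)
  have hae := Alg.ae_tendsto (μ := μ) (u := fun m x => c * u m x)
    (fun m => (hum m).const_mul c) (fun m x => by
      rw [abs_mul, abs_of_pos hc0]
      exact mul_le_one₀ hc1 (abs_nonneg _) (hu1 m x)) 0 (by
    intro M hM l
    have hMl : (0 : ℝ) < M l := by exact_mod_cast hM l
    have h1 : ∀ x, (avg M fun m => c * u m x) ^ 2 = c ^ 2 * (avg M fun m => u m x) ^ 2 := by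
      intro x
      rw [avg_smul, mul_pow]
    simp_rw [h1]
    rw [integral_const_mul]
    have h2 : Alg.bt 0 (M l) = 4 / M l := by
      unfold Alg.bt
      rw [pow_zero, Real.rpow_neg_one]
      rfl
    rw [h2]
    have h3 : C l ≤ A := by
      rw [hA]
      exact Finset.single_le_sum (fun l _ => hC0 l) (Finset.mem_univ l)
    have h5 : c * C l ≤ 1 := by
      rw [hc, inv_mul_le_iff₀ hA1]
      linarith
    have h4 : c ^ 2 * C l ≤ 4 := by
      have h6 : c ^ 2 * C l = c * (c * C l) := by ring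
      rw [h6]
      have h7 : 0 ≤ c * C l := mul_nonneg hc0.le (hC0 l)
      calc c * (c * C l) ≤ 1 * 1 := mul_le_mul hc1 h5 h7 zero_le_one
        _ ≤ 4 := by norm_num
    calc c ^ 2 * ∫ x, (avg M fun m => u m x) ^ 2 ∂μ ≤ c ^ 2 * (C l / M l) :=
          mul_le_mul_of_nonneg_left (hmain M hM l) (by positivity)
      _ = c ^ 2 * C l / M l := by ring
      _ ≤ 4 / M l := div_le_div_of_nonneg_right h4 hMl.le)
  filter_upwards [hae] with x hx
  have := hx.const_mul c⁻¹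
  rw [mul_zero] at this
  refine this.congr fun M => ?_
  rw [avg_smul, ← mul_assoc, inv_mul_cancel₀ hc0.ne', one_mul]

open Classical in
lemma tendsto_bad {J : Type} [Fintype J] {ψ : J → (κ → ℕ) → ℝ}
    {p : ℝ} (hne : ∀ i j, i ≠ j → ∃ (l : κ) (C : ℝ), LineBd (fun m => ψ i m - ψ j m) l p C) :
    Tendsto (fun M : κ → ℕ => ∑ q : J × J, if q.1 ≠ q.2 then
      avg M (fun m => if |ψ q.1 m - ψ q.2 m| ≤ p then (1 : ℝ) else 0) else 0)
      atTop (𝓝 0) := by
  have h1 : ∀ q : J × J, Tendsto (fun M : κ → ℕ => if q.1 ≠ q.2 then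
    avg M (fun m => if |ψ q.1 m - ψ q.2 m| ≤ p then (1 : ℝ) else 0) else 0)
    atTop (𝓝 0) := by
    intro q
    by_cases hq : q.1 ≠ q.2
    · simp only [if_pos hq]
      obtain ⟨l, C, hl⟩ := hne _ _ hq
      have h2 : Tendsto (fun M : κ → ℕ => C / (M l : ℝ)) atTop (𝓝 0) :=
        (tendsto_const_div_atTop_nhds_zero_nat _).comp (Alg.tendsto_coord l)
      refine tendsto_of_tendsto_of_tendsto_of_le_of_le' tendsto_const_nhds h2
        (Eventually.of_forall fun M => avg_nonneg M fun m => by split_ifs <;> norm_num) ?_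
      filter_upwards [eventually_ge_atTop (fun _ => 1)] with M hM
      exact bad_density hl M fun l => hM l
    · simp only [if_neg hq]
      exact tendsto_const_nhds
  have := tendsto_finsetSum (Finset.univ : Finset (J × J)) fun q _ => h1 q
  simpa using this

end CoreAux

open CoreAux

theorem core_ae {κ : Type} [Fintype κ] [DecidableEq κ] [Nonempty κ] {J : Type} [Fintype J]
    [DecidableEq J] {X : Type} {mX : MeasurableSpace X} {μ : Measure X} [IsProbabilityMeasure μ]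
    (F : ℝ → MeasurableSpace X) (hle : ∀ t, F t ≤ mX)
    (ψ : J → (κ → ℕ) → ℝ) (dep : J → κ → Prop) (p : ℝ) (hp : 0 ≤ p)
    (hne : ∀ i j, i ≠ j → ∃ (l : κ) (C : ℝ), LineBd (fun m => ψ i m - ψ j m) l p C)
    (hdep : ∀ j l, dep j l → ∃ C, LineBd (ψ j) l p C)
    (hvis : ∀ l : κ, ∃ j, dep j l)
    (Y : J → (κ → ℕ) → X → ℝ) (hY1 : ∀ j m x, |Y j m x| ≤ 1)
    (hYm : ∀ j m s, ψ j m < s → Measurable[F s] (Y j m))
    (hY0 : ∀ j m (h : X → ℝ), Measurable[F (ψ j m - p)] h → (∀ x, |h x| ≤ 1) →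
      ∫ x, Y j m x * h x ∂μ = 0)
    (hYinv : ∀ j l, ¬ dep j l → ∀ m t x,
      Y j (Function.update m l t) x = Y j (Function.update m l 0) x)
    (W : (κ → ℕ) → X → ℝ) (hW1 : ∀ m x, |W m x| ≤ 1) (hWm : ∀ m s, Measurable[F s] (W m)) :
    ∀ᵐ x ∂μ, Tendsto (fun M : κ → ℕ => avg M fun m => (∏ j, Y j m x) * W m x) atTop (𝓝 0) := by
  classical
  have hYM : ∀ j m, Measurable (Y j m) := fun j m =>
    (hYm j m (ψ j m + 1) (by linarith)).mono (hle _) le_rfl
  have hWM : ∀ m, Measurable (W m) := fun m => (hWm m 0).mono (hle _) le_rfl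
  -- the good part
  set u : (κ → ℕ) → X → ℝ := vv ψ p Y W Finset.univ with hu
  have hu1 : ∀ m x, |u m x| ≤ 1 := fun m x => abs_vv_le ψ p hY1 hW1 _ m x
  have hum : ∀ m, Measurable (u m) := fun m => measurable_vv ψ p hYM hWM _ m
  have hC : ∀ j l, ∃ C : ℝ, dep j l → LineBd (ψ j) l p C := by
    intro j l
    by_cases h : dep j l
    · obtain ⟨C, hC⟩ := hdep j l h
      exact ⟨C, fun _ => hC⟩
    · exact ⟨0, fun h' => absurd h' h⟩
  choose C hC using hC
  have hae := ae_of_bound (μ := μ) hum hu1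
    (fun l => ∑ _i ∈ Finset.univ.filter (fun j => dep j l),
      ∑ j ∈ Finset.univ.filter (fun j => dep j l), C j l)
    (fun l => Finset.sum_nonneg fun i _ => Finset.sum_nonneg fun j hj =>
      (hC j l (Finset.mem_filter.1 hj).2).nonneg)
    (fun M hM l => mean_sq_le F hle hp Y ψ hY1 hYm hY0 l (Finset.univ.filter fun j => dep j l)
      (by
        obtain ⟨j, hj⟩ := hvis l
        exact ⟨j, by simp [hj]⟩)
      (fun j hj m t x => hYinv j l (fun h => hj (by simp [h])) m t x) W hW1 hWm (fun j => C j l)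
      (fun j hj => hC j l (Finset.mem_filter.1 hj).2) M hM)
  have hbad := tendsto_bad hne
  filter_upwards [hae] with x h1
  have h2 : Tendsto (fun M : κ → ℕ => (avg M fun m => (∏ j, Y j m x) * W m x) -
      avg M fun m => u m x) atTop (𝓝 0) := by
    refine squeeze_zero_norm (fun M => ?_) hbad
    rw [Real.norm_eq_abs, ← avg_sub]
    refine (abs_avg_le M _).trans ?_
    have h3 : ∀ m, |(∏ j, Y j m x) * W m x - u m x| ≤ ∑ q : J × J, if q.1 ≠ q.2 then
        (if |ψ q.1 m - ψ q.2 m| ≤ p then (1 : ℝ) else 0) else 0 := by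
      intro m
      by_cases hg : Good ψ p m
      · simp only [hu, vv, if_pos hg, sub_self, abs_zero]
        exact Finset.sum_nonneg fun q _ => bad_nonneg ψ p m q
      · have h4 : |(∏ j, Y j m x) * W m x - u m x| ≤ 1 := by
          simp only [hu, vv, if_neg hg, sub_zero]
          rw [abs_mul]
          exact mul_le_one₀ (abs_prod_le_one _ fun j _ => hY1 j m x) (abs_nonneg _) (hW1 m x)
        exact h4.trans (one_le_bad hg)
    refine (avg_mono M h3).trans (le_of_eq ?_)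
    unfold avg
    rw [Finset.sum_comm, Finset.mul_sum]
    refine Finset.sum_congr rfl fun q _ => ?_
    by_cases hq : q.1 ≠ q.2
    · simp only [if_pos hq]
    · simp only [if_neg hq]
      simp
  have h3 := h2.add h1
  simp only [sub_add_cancel, add_zero] at h3
  exact h3

end Pool.Agent.Lib.Pf720pp
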