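import Pool.Agent.Lib.Pf720pp.Base
import Pool.Agent.Lib.Pf720pi.Closure
import Pool.Agent.Lib.Pf720ae.Poly.MaxBd

/-!
# From tail functions and martingale differences to all bounded functions: polynomial exponents
-/

set_option autoImplicit false
set_option linter.unusedSectionVars false

open Finset MeasureTheory Filter Topology
open scoped ENNReal

namespace Pool.Agent.Lib.Pf720pp

open Pool.Agent.Lib.Pf720ae
open Pool.Agent.Lib.Pf720pi (past tail past_mono past_le tail_le tail_le_past IsMD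
  abs_prod_le_one exists_tail_limit pinskerW zeroEntropy_of_tail)

variable {κ : Type} [Fintype κ] [DecidableEq κ]

/-- replacing one of the functions -/
lemma prod_update {X : Type} {d : ℕ} (W : (Fin d → ℤ) → X → X) {J : Type} [Fintype J]
    [DecidableEq J] (q : J → κ → PV d) (F : J → X → ℝ) (a : J) (ψ : X → ℝ)
    (x : X) (m : κ → ℕ) :
    ∏ j, Function.update F a ψ j (W (ev (q j) m) x) =
      ψ (W (ev (q a) m) x) * ∏ j ∈ Finset.univ.erase a, F j (W (ev (q j) m) x) := by
  rw [← Finset.mul_prod_erase Finset.univ _ (Finset.mem_univ a), Function.update_self]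
  congr 1
  refine Finset.prod_congr rfl fun j hj => ?_
  rw [Function.update_of_ne (Finset.ne_of_mem_erase hj)]

/-- the closure step -/
lemma closure_step {X : Type} {mX : MeasurableSpace X} {μ : Measure X} [IsProbabilityMeasure μ]
    {d : ℕ} (W : (Fin d → ℤ) → X → X) (hW0 : ∀ x, W 0 x = x)
    (hWadd : ∀ a b x, W (a + b) x = W a (W b x)) (hWmp : ∀ a, MeasurePreserving (W a) μ μ)
    {J : Type} [Fintype J] [DecidableEq J]
    (q : J → κ → PV d) (F : J → X → ℝ) (a : J)
    (hF1 : ∀ j, j ≠ a → ∀ x, |F j x| ≤ 1) (hFa : Measurable (F a))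
    (n : ℕ → ℕ) (c : ℕ → ℕ → ℝ) (θ : ℕ → ℕ → X → ℝ) (hθ : ∀ i k, Measurable (θ i k))
    (hC : ∀ i k, ∀ᵐ x ∂μ, Cvg fun m : κ → ℕ =>
      ∏ j, Function.update F a (θ i k) j (W (ev (q j) m) x))
    (ht : Tendsto (fun i => ∫⁻ x, (ENNReal.ofReal |F a x - ∑ k ∈ range (n i), c i k * θ i k x|) ^ 2
      ∂μ) atTop (𝓝 0)) :
    ∀ᵐ x ∂μ, Cvg fun m : κ → ℕ => ∏ j, F j (W (ev (q j) m) x) := by
  set Wt : X → Set ((κ → ℕ) → ℝ) := fun x =>
    {fun m => ∏ j ∈ Finset.univ.erase a, F j (W (ev (q j) m) x)} with hWt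
  have hWt1 : ∀ x, ∀ w ∈ Wt x, ∀ m, |w m| ≤ 1 := by
    rintro x w rfl m
    rw [Finset.abs_prod]
    exact Finset.prod_le_one (fun i _ => abs_nonneg _) fun j hj =>
      hF1 j (Finset.ne_of_mem_erase hj) _
  set U : (κ → ℕ) → X → X := fun m x => W (ev (q a) m) x with hU
  have hUmp : ∀ m, MeasurePreserving (U m) μ μ := fun m => hWmp _
  have hMax : MaxBd μ U := maxBd_poly hW0 hWadd hWmp (fun l i => q a l i)
  have hCv : ∀ i k, Cv μ U Wt (θ i k) := by
    intro i k
    filter_upwards [hC i k] with x hx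
    rintro w rfl
    exact hx.congr fun m => prod_update W q F a (θ i k) x m
  have hsum : ∀ i, Cv μ U Wt (fun x => ∑ k ∈ range (n i), c i k * θ i k x) := by
    intro i
    have h : ∀ N : ℕ, Cv μ U Wt (fun x => ∑ k ∈ range N, c i k * θ i k x) := by
      intro N
      induction N with
      | zero =>
        simp only [range_zero, sum_empty]
        exact Cv.zero
      | succ N ih =>
        simp only [Finset.sum_range_succ]
        exact ih.add ((hCv i N).smul (c i N))
    exact h _
  have hmain : Cv μ U Wt (F a) :=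
    Cv.of_tendsto_max hMax hUmp hWt1 hFa
      (fun i => Finset.measurable_fun_sum _ fun k _ => (hθ i k).const_mul _) hsum ht
  filter_upwards [hmain] with x hx
  refine (hx _ rfl).congr fun m => ?_
  rw [← Finset.mul_prod_erase Finset.univ _ (Finset.mem_univ a)]

/-- functions observed through a fixed σ-algebra -/
theorem closure_one {X : Type} {mP : MeasurableSpace X} {mX : MeasurableSpace X} {μ : Measure X}
    [IsProbabilityMeasure μ] {d : ℕ} (hP : mP ≤ mX) (W : (Fin d → ℤ) → X → X)
    (hW0 : ∀ x, W 0 x = x)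
    (hWadd : ∀ a b x, W (a + b) x = W a (W b x)) (hWmp : ∀ a, MeasurePreserving (W a) μ μ)
    (φ : (Fin d → ℤ) →+ ℝ) (hφ : Function.Injective φ)
    (K : Set ℕ) (hK : ∀ v w, 1 ≤ v → v + w ∈ K → v + 2 * w ∈ K)
    (Q : Set (PV d)) (hQ : ∀ q ∈ Q, ∀ i, (q i).coeff 0 = 0)
    (hH : PolR μ K Q W (tail W φ mP)) (hκ : Fintype.card κ ∈ K)
    {J : Type} [Fintype J] [DecidableEq J]
    (q : J → κ → PV d) (hqQ : ∀ j l, q j l = 0 ∨ q j l ∈ Q) (hq0 : ∀ j, q j ≠ 0)
    (hqinj : Function.Injective q)
    (s : Finset J) (F : J → X → ℝ)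
    (hFs : ∀ j ∈ s, Measurable[mP] (F j) ∧ ∀ x, |F j x| ≤ 1)
    (hF : ∀ j ∉ s, (Measurable[tail W φ mP] (F j) ∧ ∀ x, |F j x| ≤ 1) ∨ IsMD μ W φ mP (F j)) :
    ∀ᵐ x ∂μ, Cvg fun m : κ → ℕ => ∏ j, F j (W (ev (q j) m) x) := by
  have hWm : ∀ a, Measurable (W a) := fun a => (hWmp a).measurable
  have hMD1 : ∀ G : X → ℝ, IsMD μ W φ mP G → ∀ x, |G x| ≤ 1 := by
    rintro G ⟨p, f, g, -, hf1, -, hg1, -, rfl⟩ x
    rw [abs_div, abs_of_pos (by norm_num : (0 : ℝ) < 2), div_le_one (by norm_num)]
    have h1 := abs_sub (f x) (g x)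
    have h2 := hf1 x
    have h3 := hg1 x
    linarith
  induction s using Finset.induction_on generalizing F with
  | empty =>
    exact base_case hP W hW0 hWadd hWmp φ hφ K hK Q hQ hH hκ q hqQ hq0 hqinj F
      (fun j => hF j (Finset.notMem_empty j))
  | insert a s ha ih =>
    obtain ⟨hFam, hFa1⟩ := hFs a (Finset.mem_insert_self _ _)
    have hF1 : ∀ j x, |F j x| ≤ 1 := by
      intro j x
      by_cases hj : j ∈ insert a s
      · exact (hFs j hj).2 x
      · rcases hF j hj with h | h
        · exact h.2 x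
        · exact hMD1 _ h x
    have hFaX : Measurable (F a) := hFam.mono hP le_rfl
    obtain ⟨g, f', hgm, hg1, hfg, hf'm, hf'1, hlim⟩ := exists_tail_limit (μ := μ)
      (F := fun n : ℕ => past W φ mP (-(n : ℝ)))
      (fun m n hmn => past_mono W φ mP (by
        have : (m : ℝ) ≤ n := by exact_mod_cast hmn
        linarith)) (fun n => past_le W φ hP hWm _) (F a) hFaX hFa1
    have hrest : ∀ (θ : X → ℝ), ((Measurable[tail W φ mP] θ ∧ ∀ x, |θ x| ≤ 1) ∨ IsMD μ W φ mP θ) →
        ∀ᵐ x ∂μ, Cvg fun m : κ → ℕ => ∏ j, Function.update F a θ j (W (ev (q j) m) x) := by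
      intro θ hθ
      refine ih (Function.update F a θ) ?_ ?_
      · intro j hj
        have hja : j ≠ a := fun h => ha (h ▸ hj)
        rw [Function.update_of_ne hja]
        exact hFs j (Finset.mem_insert_of_mem hj)
      · intro j hj
        by_cases hja : j = a
        · subst hja
          rw [Function.update_self]
          exact hθ
        · rw [Function.update_of_ne hja]
          exact hF j fun h => (Finset.mem_insert.1 h).elim hja hj
    have hgX : ∀ n, Measurable (g n) := fun n => (hgm n).mono (past_le W φ hP hWm _) le_rfl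
    have hf'X : Measurable f' := hf'm.mono (tail_le W φ hP hWm) le_rfl
    refine closure_step W hW0 hWadd hWmp q F a (fun j _ x => hF1 j x) hFaX (fun _ => 2)
      (fun _ k => if k = 0 then 2 else 1)
      (fun i k x => if k = 0 then (F a x - g i x) / 2 else f' x) ?_ ?_ ?_
    · intro i k
      by_cases hk : k = 0
      · simp only [hk, if_true]
        exact (hFaX.sub (hgX i)).div_const 2
      · simp only [hk, if_false]
        exact hf'X
    · intro i k
      by_cases hk : k = 0
      · simp only [hk, if_true]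
        exact hrest _ (Or.inr ⟨i, F a, g i, hFam, hFa1, hgm i, hg1 i, hfg i, rfl⟩)
      · simp only [hk, if_false]
        exact hrest _ (Or.inl ⟨hf'm, hf'1⟩)
    · refine hlim.congr fun i => lintegral_congr fun x => ?_
      rw [Finset.sum_range_succ, Finset.sum_range_one]
      simp only [if_true, one_ne_zero, if_false]
      congr 3
      ring_nf

theorem closure_two {X : Type} {mX : MeasurableSpace X} {μ : Measure X}
    [IsProbabilityMeasure μ] {d : ℕ} (W : (Fin d → ℤ) → X → X)
    (hW0 : ∀ x, W 0 x = x)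
    (hWadd : ∀ a b x, W (a + b) x = W a (W b x)) (hWmp : ∀ a, MeasurePreserving (W a) μ μ)
    (φ : (Fin d → ℤ) →+ ℝ) (hφ : Function.Injective φ)
    (K : Set ℕ) (hK : ∀ v w, 1 ≤ v → v + w ∈ K → v + 2 * w ∈ K)
    (Q : Set (PV d)) (hQ : ∀ q ∈ Q, ∀ i, (q i).coeff 0 = 0)
    (hH : PolR μ K Q W (pinskerW μ W)) (hκ : Fintype.card κ ∈ K)
    {J : Type} [Fintype J] [DecidableEq J]
    (q : J → κ → PV d) (hqQ : ∀ j l, q j l = 0 ∨ q j l ∈ Q) (hq0 : ∀ j, q j ≠ 0)
    (hqinj : Function.Injective q)
    (s : Finset J) (F : J → X → ℝ) (hFm : ∀ j, Measurable (F j)) (hF1 : ∀ j x, |F j x| ≤ 1)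
    (hF : ∀ j ∉ s, (Set.range (F j)).Finite) :
    ∀ᵐ x ∂μ, Cvg fun m : κ → ℕ => ∏ j, F j (W (ev (q j) m) x) := by
  classical
  have hWm : ∀ a, Measurable (W a) := fun a => (hWmp a).measurable
  induction s using Finset.induction_on generalizing F with
  | empty =>
    have hfin : ∀ j, Finite (Set.range (F j)) := fun j => (hF j (Finset.notMem_empty j)).to_subtype
    let _ : ∀ j, Fintype (Set.range (F j)) := fun j => Fintype.ofFinite _
    set P : X → ((j : J) → Set.range (F j)) := fun x j => ⟨F j x, x, rfl⟩ with hPdef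
    have hPm : ∀ i, MeasurableSet (P ⁻¹' {i}) := by
      intro i
      have e : P ⁻¹' {i} = ⋂ j, (F j) ⁻¹' {((i j : Set.range (F j)) : ℝ)} := by
        ext x
        simp only [Set.mem_preimage, Set.mem_singleton_iff, Set.mem_iInter, hPdef]
        rw [funext_iff]
        exact forall_congr' fun j => Subtype.ext_iff
      rw [e]
      exact MeasurableSet.iInter fun j => hFm j (measurableSet_singleton _)
    have hPle : MeasurableSpace.comap P ⊤ ≤ mX := by
      rintro s ⟨t, -, rfl⟩
      have e : P ⁻¹' t = ⋃ i ∈ t, P ⁻¹' {i} := by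
        ext x
        simp
      rw [e]
      exact MeasurableSet.biUnion (Set.to_countable t) fun i _ => hPm i
    have htail : tail W φ (MeasurableSpace.comap P ⊤) ≤ pinskerW μ W := by
      intro s hs
      refine MeasurableSpace.measurableSet_generateFrom ⟨tail_le W φ hPle hWm s hs, ?_⟩
      exact zeroEntropy_of_tail W hW0 hWadd hWmp φ hφ P hPm s hs
    have hHt : PolR μ K Q W (tail W φ (MeasurableSpace.comap P ⊤)) := by
      intro κ' _ _ J' _ _ q' F' hκ' hq' hF'm hF'1
      exact hH κ' J' q' F' hκ' hq' (fun j => (hF'm j).mono htail le_rfl) hF'1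
    refine closure_one hPle W hW0 hWadd hWmp φ hφ K hK Q hQ hHt hκ q hqQ hq0 hqinj Finset.univ F
      (fun j _ => ⟨?_, hF1 j⟩) (fun j hj => absurd (Finset.mem_univ j) hj)
    intro t ht
    refine ⟨{i | ((i j : Set.range (F j)) : ℝ) ∈ t}, trivial, ?_⟩
    ext x
    simp [hPdef]
  | insert a s ha ih =>
    set θ : ℕ → X → ℝ := fun i x => (⌊((i : ℝ) + 1) * F a x⌋ : ℝ) / ((i : ℝ) + 1) with hθ
    have hpos : ∀ i : ℕ, (0 : ℝ) < (i : ℝ) + 1 := fun i => by positivity
    have hθm : ∀ i, Measurable (θ i) := by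
      intro i
      exact ((measurable_of_countable (fun z : ℤ => (z : ℝ))).comp
        ((hFm a).const_mul _).floor).div_const _
    have hfl : ∀ (i : ℕ) x, -((i : ℤ) + 1) ≤ ⌊((i : ℝ) + 1) * F a x⌋ ∧
        ⌊((i : ℝ) + 1) * F a x⌋ ≤ (i : ℤ) + 1 := by
      intro i x
      have h1 := abs_le.1 (hF1 a x)
      have h2 := hpos i
      constructor
      · rw [Int.le_floor]
        push_cast
        nlinarith [h1.1]
      · have : (⌊((i : ℝ) + 1) * F a x⌋ : ℝ) ≤ (i : ℝ) + 1 := (Int.floor_le _).trans (by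
          nlinarith [h1.2])
        exact_mod_cast this
    have hθ1 : ∀ i x, |θ i x| ≤ 1 := by
      intro i x
      simp only [hθ]
      rw [abs_div, abs_of_pos (hpos i), div_le_one (hpos i), abs_le]
      obtain ⟨h1, h2⟩ := hfl i x
      constructor
      · exact_mod_cast h1
      · exact_mod_cast h2
    have hθfin : ∀ i, (Set.range (θ i)).Finite := by
      intro i
      refine ((Set.finite_Icc (-((i : ℤ) + 1)) ((i : ℤ) + 1)).image
        fun z : ℤ => (z : ℝ) / ((i : ℝ) + 1)).subset ?_
      rintro _ ⟨x, rfl⟩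
      exact ⟨⌊((i : ℝ) + 1) * F a x⌋, hfl i x, rfl⟩
    have hθd : ∀ i x, |F a x - θ i x| ≤ 1 / ((i : ℝ) + 1) := by
      intro i x
      have h1 := Int.floor_le (((i : ℝ) + 1) * F a x)
      have h2 := Int.lt_floor_add_one (((i : ℝ) + 1) * F a x)
      have h3 := hpos i
      have e : F a x - θ i x =
          (((i : ℝ) + 1) * F a x - ⌊((i : ℝ) + 1) * F a x⌋) / ((i : ℝ) + 1) := by
        simp only [hθ]
        field_simp
      rw [e, abs_div, abs_of_pos h3]
      refine div_le_div_of_nonneg_right ?_ h3.le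
      rw [abs_le]
      constructor <;> linarith
    refine closure_step W hW0 hWadd hWmp q F a (fun j _ x => hF1 j x) (hFm a) (fun _ => 1)
      (fun _ _ => 1) (fun i _ => θ i) (fun i _ => hθm i) ?_ ?_
    · intro i _
      refine ih (Function.update F a (θ i)) ?_ ?_ ?_
      · intro j
        by_cases hja : j = a
        · subst hja; rw [Function.update_self]; exact hθm i
        · rw [Function.update_of_ne hja]; exact hFm j
      · intro j
        by_cases hja : j = a
        · subst hja; rw [Function.update_self]; exact hθ1 i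
        · rw [Function.update_of_ne hja]; exact hF1 j
      · intro j hj
        by_cases hja : j = a
        · subst hja; rw [Function.update_self]; exact hθfin i
        · rw [Function.update_of_ne hja]
          exact hF j fun h => (Finset.mem_insert.1 h).elim hja hj
    · have h1 : ∀ i : ℕ, ∫⁻ x, (ENNReal.ofReal |F a x - ∑ k ∈ range 1, 1 * θ i x|) ^ 2 ∂μ ≤
          (ENNReal.ofReal (1 / ((i : ℝ) + 1))) ^ 2 := by
        intro i
        calc ∫⁻ x, (ENNReal.ofReal |F a x - ∑ k ∈ range 1, 1 * θ i x|) ^ 2 ∂μ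
            ≤ ∫⁻ _, (ENNReal.ofReal (1 / ((i : ℝ) + 1))) ^ 2 ∂μ := by
              refine lintegral_mono fun x => ?_
              rw [Finset.sum_range_one, one_mul]
              exact pow_le_pow_left' (ENNReal.ofReal_le_ofReal (hθd i x)) 2
          _ = _ := by simp
      have h2 : Tendsto (fun i : ℕ => (ENNReal.ofReal (1 / ((i : ℝ) + 1))) ^ 2) atTop (𝓝 0) := by
        have h3 : Tendsto (fun i : ℕ => ENNReal.ofReal (1 / ((i : ℝ) + 1))) atTop
            (𝓝 (ENNReal.ofReal 0)) :=
          (ENNReal.continuous_ofReal.tendsto 0).comp tendsto_one_div_add_atTop_nhds_zero_nat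
        rw [ENNReal.ofReal_zero] at h3
        have := (ENNReal.continuous_pow 2).tendsto 0 |>.comp h3
        simpa [Function.comp_def] using this
      exact tendsto_of_tendsto_of_tendsto_of_le_of_le tendsto_const_nhds h2 (fun _ => zero_le)
        h1

/-- grouping equal exponents -/
theorem polR_of_pinsker {X : Type} {mX : MeasurableSpace X} {μ : Measure X}
    [IsProbabilityMeasure μ] {d : ℕ} (W : (Fin d → ℤ) → X → X)
    (hW0 : ∀ x, W 0 x = x)
    (hWadd : ∀ a b x, W (a + b) x = W a (W b x)) (hWmp : ∀ a, MeasurePreserving (W a) μ μ)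
    (φ : (Fin d → ℤ) →+ ℝ) (hφ : Function.Injective φ)
    (K : Set ℕ) (hK : ∀ v w, 1 ≤ v → v + w ∈ K → v + 2 * w ∈ K)
    (Q : Set (PV d)) (hQ : ∀ q ∈ Q, ∀ i, (q i).coeff 0 = 0)
    (hH : PolR μ K Q W (pinskerW μ W)) : PolR μ K Q W mX := by
  intro κ _ _ J _ _ q F hκ hqQ hFm hF1
  classical
  set S : Finset (κ → PV d) := (Finset.univ.image q).erase 0 with hS
  have h1 := closure_two W hW0 hWadd hWmp φ hφ K hK Q hQ hH hκ (κ := κ) (J := {B // B ∈ S})
    (fun B => B.1) (fun B l => by
      obtain ⟨j, -, hj⟩ := Finset.mem_image.1 (Finset.mem_of_mem_erase B.2)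
      rw [← hj]
      exact hqQ j l)
    (fun B => Finset.ne_of_mem_erase B.2) Subtype.val_injective Finset.univ
    (fun B x => ∏ j ∈ Finset.univ.filter (fun j => q j = B.1), F j x)
    (fun B => Finset.measurable_fun_prod _ fun j _ => hFm j)
    (fun B x => abs_prod_le_one _ _ fun j => hF1 j x)
    (fun B hB => absurd (Finset.mem_univ B) hB)
  filter_upwards [h1] with x hx
  refine (hx.smul (∏ j ∈ Finset.univ.filter (fun j => q j = 0), F j x)).congr fun m => ?_
  rw [← Finset.prod_filter_mul_prod_filter_not Finset.univ (fun j => q j = 0)]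
  congr 1
  · refine Finset.prod_congr rfl fun j hj => ?_
    rw [(Finset.mem_filter.1 hj).2, ev_zero, hW0]
  · rw [← Finset.prod_fiberwise_of_maps_to (s := Finset.univ.filter fun j => ¬ q j = 0) (t := S)
      (g := q)]
    · rw [Finset.prod_coe_sort S (fun B => ∏ j ∈ Finset.univ.filter (fun j => q j = B),
        F j (W (ev B m) x))]
      refine Finset.prod_congr rfl fun B hB => ?_
      have hB0 := Finset.ne_of_mem_erase hB
      have e : (Finset.univ.filter fun j => ¬ q j = 0).filter (fun j => q j = B) =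
          Finset.univ.filter fun j => q j = B := by
        ext j
        simp only [Finset.mem_filter, Finset.mem_univ, true_and]
        exact ⟨fun h => h.2, fun h => ⟨by rw [h]; exact hB0, h⟩⟩
      rw [e]
      refine Finset.prod_congr rfl fun j hj => ?_
      rw [(Finset.mem_filter.1 hj).2]
    · intro j hj
      exact Finset.mem_erase.2 ⟨(Finset.mem_filter.1 hj).2,
        Finset.mem_image.2 ⟨j, Finset.mem_univ _, rfl⟩⟩

end Pool.Agent.Lib.Pf720pp
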